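import Mathlib
import Pool.Agent.TH446.SIC.Abel

set_option autoImplicit false

/-! The lines of a maximal equiangular tight frame fixed by a group of symmetries. -/

namespace Run7.h489.AbSym

open Matrix Pool.Agent.H109R2.SIC Pool.Agent.H109R2.SymGroup Pool.Agent.W864.Sym
  Pool.Agent.TH446.SICG
open scoped ComplexOrder InnerProductSpace

variable {d : ℕ} {x : Fin (d ^ 2) → EuclideanSpace ℂ (Fin d)}

/-- a group of symmetries fixing a line lifts to a group of matrices. -/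
theorem exists_lift (hx : IsMaxETF d x) (S : Subgroup (Equiv.Perm (Fin (d ^ 2))))
    (hS : ∀ π ∈ S, ∃ M, Ind x M π) {i : Fin (d ^ 2)} (hi : ∀ π ∈ S, π i = i) :
    ∃ V : S → Matrix (Fin d) (Fin d) ℂ, (∀ g, Ind x (V g) g) ∧
      (∀ (g : S) (j : Fin (d ^ 2)), (g : Equiv.Perm (Fin (d ^ 2))) j = j →
        V g *ᵥ (x j).ofLp = (x j).ofLp) ∧
      (∀ g h, V (g * h) = V g * V h) ∧ V 1 = 1 := by
  have h1 : ∀ g : S, ∃ N, Ind x N g ∧ ∀ j, (g : Equiv.Perm (Fin (d ^ 2))) j = j →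
      N *ᵥ (x j).ofLp = (x j).ofLp := by
    intro g
    obtain ⟨M, hM⟩ := hS g g.2
    obtain ⟨N, hN, -, hN2⟩ := hM.normalise hx (hi g g.2)
    exact ⟨N, hN, hN2⟩
  choose V hV hV2 using h1
  have h3 : V 1 = 1 := (hV 1).eq_one hx (i := i) (hV2 1 i rfl)
  refine ⟨V, hV, hV2, fun g h => ?_, h3⟩
  have e1 : Ind x (V g * V h) (g * h : Equiv.Perm (Fin (d ^ 2))) := (hV g).mul (hV h)
  have e2 : Ind x (V (g * h)) (g * h : Equiv.Perm (Fin (d ^ 2))) := hV (g * h)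
  have e4 : Ind x ((V g * V h)ᴴ * V (g * h)) 1 := by
    have := (Ind_adj hx e1).mul e2
    rwa [inv_mul_cancel] at this
  have e6 : (V g * V h) *ᵥ (x i).ofLp = (x i).ofLp := by
    rw [← mulVec_mulVec, hV2 h i (hi h h.2), hV2 g i (hi g g.2)]
  have e5 : ((V g * V h)ᴴ * V (g * h)) = 1 := by
    refine e4.eq_one hx (i := i) ?_
    rw [← mulVec_mulVec, hV2 (g * h) i (hi _ (g * h).2)]
    nth_rewrite 1 [← e6]
    rw [mulVec_mulVec, e1.1, one_mulVec]
  have e7 : (V g * V h) * (V g * V h)ᴴ = 1 := mul_eq_one_comm.mp e1.1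
  calc V (g * h) = ((V g * V h) * (V g * V h)ᴴ) * V (g * h) := by rw [e7, Matrix.one_mul]
    _ = (V g * V h) * ((V g * V h)ᴴ * V (g * h)) := by simp only [Matrix.mul_assoc]
    _ = V g * V h := by rw [e5, Matrix.mul_one]

theorem norm_trace_le (hd : 1 ≤ d) (hx : IsMaxETF d x) {M : Matrix (Fin d) (Fin d) ℂ}
    {π : Equiv.Perm (Fin (d ^ 2))} (h : Ind x M π) (hπ : π ≠ 1) :
    ‖trace M‖ ≤ 1 + Real.sqrt ((d : ℝ) + 1) := by
  have h1 := norm_trace_sq hd hx h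
  have h2 := trace_bound hd hx hπ h
  rw [← h1, Real.sqrt_sq (norm_nonneg _)] at h2
  exact h2

/-- The lines fixed by a group of symmetries lie in a subspace of small dimension. -/
theorem proj_bound (hd : 1 ≤ d) (hx : IsMaxETF d x) (S : Subgroup (Equiv.Perm (Fin (d ^ 2))))
    (hS : ∀ π ∈ S, ∃ M, Ind x M π) {i : Fin (d ^ 2)} (hi : ∀ π ∈ S, π i = i)
    (T : Finset (Fin (d ^ 2))) (hT : ∀ j ∈ T, ∀ π ∈ S, π j = j) :
    ∃ μ : ℝ, (Nat.card S : ℝ) * μ ≤ d + ((Nat.card S : ℝ) - 1) * (1 + Real.sqrt ((d : ℝ) + 1)) ∧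
      0 ≤ ((d : ℝ) - μ) * (d * μ - T.card * (d - μ + 1)) := by
  classical
  have : Fintype S := Fintype.ofFinite S
  obtain ⟨V, hV, hV2, hmul, hone⟩ := exists_lift hx S hS hi
  set n : ℕ := Fintype.card S with hn
  have hn0 : n ≠ 0 := Fintype.card_ne_zero
  have hnc : (n : ℂ) ≠ 0 := by exact_mod_cast hn0
  have hnr : (0 : ℝ) < n := by exact_mod_cast Nat.pos_of_ne_zero hn0
  set E : Matrix (Fin d) (Fin d) ℂ := (1 / (n : ℂ)) • ∑ g : S, V g with hE
  have hVE : ∀ g, V g * ∑ h : S, V h = ∑ h : S, V h := by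
    intro g
    rw [Finset.mul_sum]
    simp only [← hmul]
    exact Equiv.sum_comp (Equiv.mulLeft g) V
  have hEE : E * E = E := by
    rw [hE, smul_mul_smul_comm, Finset.sum_mul]
    simp only [hVE]
    rw [Finset.sum_const, Finset.card_univ, ← hn, ← Nat.cast_smul_eq_nsmul ℂ, smul_smul]
    congr 1
    field_simp
  have hVinv : ∀ g, (V g)ᴴ = V g⁻¹ := by
    intro g
    have h1 : V g * V g⁻¹ = 1 := by rw [← hmul, mul_inv_cancel, hone]
    calc (V g)ᴴ = (V g)ᴴ * (V g * V g⁻¹) := by rw [h1, Matrix.mul_one]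
      _ = ((V g)ᴴ * V g) * V g⁻¹ := by rw [Matrix.mul_assoc]
      _ = V g⁻¹ := by rw [(hV g).1, Matrix.one_mul]
  have hEh : Eᴴ = E := by
    rw [hE, conjTranspose_smul, conjTranspose_sum]
    simp only [hVinv]
    have e : ∑ g : S, V g⁻¹ = ∑ g : S, V g := Equiv.sum_comp (Equiv.inv S) V
    rw [e]
    congr 1
    simp
  have hET : ∀ j ∈ T, E *ᵥ (x j).ofLp = (x j).ofLp := by
    intro j hj
    rw [hE, smul_mulVec, Matrix.sum_mulVec]
    have : ∀ g : S, V g *ᵥ (x j).ofLp = (x j).ofLp := fun g => hV2 g j (hT j hj g g.2)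
    simp only [this]
    rw [Finset.sum_const, Finset.card_univ, ← hn, ← Nat.cast_smul_eq_nsmul ℂ, smul_smul,
      one_div, inv_mul_cancel₀ hnc, one_smul]
  have hreal : star (trace E) = trace E := by
    rw [← trace_conjTranspose, hEh]
  have hμ : trace E = (((trace E).re : ℝ) : ℂ) := (Complex.conj_eq_iff_re.mp hreal).symm
  refine ⟨(trace E).re, ?_, rel_bound hd hx hEE hEh T hET hμ⟩
  have h1 : (n : ℝ) * (trace E).re ≤ ∑ g : S, ‖trace (V g)‖ := by
    have e1 : (n : ℝ) * (trace E).re = (∑ g : S, trace (V g)).re := by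
      have : (n : ℂ) * trace E = ∑ g : S, trace (V g) := by
        rw [hE, trace_smul, trace_sum, smul_eq_mul, ← mul_assoc, mul_one_div_cancel hnc, one_mul]
      rw [← this, ← Complex.ofReal_natCast, Complex.re_ofReal_mul]
    rw [e1]
    exact (Complex.re_le_norm _).trans (norm_sum_le _ _)
  have h2 : ∑ g : S, ‖trace (V g)‖ ≤ d + ((n : ℝ) - 1) * (1 + Real.sqrt ((d : ℝ) + 1)) := by
    rw [← Finset.add_sum_erase Finset.univ _ (Finset.mem_univ (1 : S)), hone, trace_one,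
      Fintype.card_fin, Complex.norm_natCast]
    refine add_le_add_right ?_ _
    refine (Finset.sum_le_card_nsmul _ _ (1 + Real.sqrt ((d : ℝ) + 1)) ?_).trans (le_of_eq ?_)
    · intro g hg
      refine norm_trace_le hd hx (hV g) fun h => ?_
      exact (Finset.ne_of_mem_erase hg) (Subtype.ext h)
    · rw [Finset.card_erase_of_mem (Finset.mem_univ _), Finset.card_univ, ← hn, nsmul_eq_mul,
        Nat.cast_sub (Nat.one_le_iff_ne_zero.mpr hn0), Nat.cast_one]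
  rw [Nat.card_eq_fintype_card, ← hn]
  exact h1.trans h2

/-- The number of lines fixed by a group of order `σ` of symmetries, `y = √(d+1)`. -/
theorem fix_bound (hd : 4 ≤ d) (hx : IsMaxETF d x) (S : Subgroup (Equiv.Perm (Fin (d ^ 2))))
    (hS : ∀ π ∈ S, ∃ M, Ind x M π) (h2 : 2 ≤ Nat.card S)
    (T : Finset (Fin (d ^ 2))) (hT : ∀ j ∈ T, ∀ π ∈ S, π j = j) (y σ : ℝ)
    (hy : y = Real.sqrt ((d : ℝ) + 1)) (hσ : σ = Nat.card S) :
    (T.card : ℝ) * ((σ - 1) * (y ^ 2 - y - 1)) ≤ (y - 1) * (y + 1) ^ 2 * (σ + y - 2) := by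
  have hy2 : y ^ 2 = (d : ℝ) + 1 := by rw [hy]; exact Real.sq_sqrt (by positivity)
  have hd4 : (4 : ℝ) ≤ d := by exact_mod_cast hd
  have hy0 : 0 ≤ y := by rw [hy]; exact Real.sqrt_nonneg _
  have hyg : 2 < y := by nlinarith
  have hσ2 : (2 : ℝ) ≤ σ := by rw [hσ]; exact_mod_cast h2
  rcases T.eq_empty_or_nonempty with h0 | ⟨i, hi⟩
  · rw [h0, Finset.card_empty, Nat.cast_zero, zero_mul]
    have : 0 ≤ (y - 1) * (y + 1) ^ 2 := mul_nonneg (by linarith) (by positivity)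
    exact mul_nonneg this (by linarith)
  obtain ⟨μ, h3, h4⟩ := proj_bound (by omega) hx S hS (hT i hi) T hT
  rw [← hσ, ← hy] at h3
  have hdy : (d : ℝ) = y ^ 2 - 1 := by linarith
  rw [hdy] at h3 h4
  set f : ℝ := (T.card : ℝ) with hf
  have hf0 : 0 ≤ f := Nat.cast_nonneg _
  have hμd : μ < y ^ 2 - 1 := by
    -- `σ μ ≤ (y+1)(σ + y - 2)` and `σ (y ^ 2 - 1) > (y+1)(σ+y-2)`
    have h5 : (y + 1) * (σ + y - 2) < σ * (y ^ 2 - 1) := by
      have : 0 < (y + 1) * ((σ - 1) * (y - 2)) := by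
        apply mul_pos (by linarith)
        exact mul_pos (by linarith) (by linarith)
      nlinarith
    have h6 : σ * μ < σ * (y ^ 2 - 1) := by nlinarith
    exact lt_of_mul_lt_mul_left h6 (by linarith)
  have h5 : 0 ≤ (y ^ 2 - 1) * μ - f * ((y ^ 2 - 1) - μ + 1) :=
    (mul_nonneg_iff_of_pos_left (by linarith)).mp h4
  -- `f (y ^ 2 - μ) ≤ (y ^ 2 - 1) μ`, monotone in `μ`
  have h6 : f * y ^ 2 * σ ≤ (y ^ 2 - 1 + f) * (σ * μ) := by nlinarith
  have h7 : σ * μ ≤ (y + 1) * (σ + y - 2) := by nlinarith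
  have h8 : f * y ^ 2 * σ ≤ (y ^ 2 - 1 + f) * ((y + 1) * (σ + y - 2)) :=
    h6.trans (mul_le_mul_of_nonneg_left h7 (by nlinarith))
  nlinarith

end Run7.h489.AbSym
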