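import Mathlib
import Pool.Agent.Run7.h489.AbSym.Proj

set_option autoImplicit false

/-! Orbits of a group of symmetries of a maximal equiangular tight frame. -/

namespace Run7.h489.AbSym

open Matrix Pool.Agent.H109R2.SIC Pool.Agent.H109R2.SymGroup Pool.Agent.W864.Sym
  Pool.Agent.TH446.SICG
open scoped ComplexOrder InnerProductSpace

variable {d : ℕ} {x : Fin (d ^ 2) → EuclideanSpace ℂ (Fin d)}

open Classical in
/-- the orbit of a line -/
noncomputable def orb (G : Subgroup (Equiv.Perm (Fin (d ^ 2)))) (i : Fin (d ^ 2)) :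
    Finset (Fin (d ^ 2)) := Finset.univ.filter fun j => ∃ g ∈ G, g i = j

theorem mem_orb {G : Subgroup (Equiv.Perm (Fin (d ^ 2)))} {i j : Fin (d ^ 2)} :
    j ∈ orb G i ↔ ∃ g ∈ G, g i = j := by simp [orb]

/-- the stabiliser of a line -/
def stab (G : Subgroup (Equiv.Perm (Fin (d ^ 2)))) (i : Fin (d ^ 2)) :
    Subgroup (Equiv.Perm (Fin (d ^ 2))) := (MulAction.stabilizer G i).map G.subtype

theorem mem_stab {G : Subgroup (Equiv.Perm (Fin (d ^ 2)))} {i : Fin (d ^ 2)}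
    {π : Equiv.Perm (Fin (d ^ 2))} : π ∈ stab G i ↔ π ∈ G ∧ π i = i := by
  unfold stab
  rw [Subgroup.mem_map]
  constructor
  · rintro ⟨g, hg, rfl⟩
    exact ⟨g.2, hg⟩
  · rintro ⟨h1, h2⟩
    exact ⟨⟨π, h1⟩, h2, rfl⟩

theorem card_stab (G : Subgroup (Equiv.Perm (Fin (d ^ 2)))) (i : Fin (d ^ 2)) :
    Nat.card (stab G i) = Nat.card (MulAction.stabilizer G i) :=
  Subgroup.card_map_of_injective (Subgroup.subtype_injective G)

theorem orb_stab (G : Subgroup (Equiv.Perm (Fin (d ^ 2)))) (i : Fin (d ^ 2)) :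
    (orb G i).card * Nat.card (stab G i) = Nat.card G := by
  classical
  rw [card_stab]
  have h1 := Nat.card_congr (MulAction.orbitEquivQuotientStabilizer G i)
  have h2 := Subgroup.card_eq_card_quotient_mul_card_subgroup (MulAction.stabilizer G i)
  have h3 : Nat.card (MulAction.orbit G i) = (orb G i).card := by
    rw [Nat.card_eq_card_toFinset]
    congr 1
    ext j
    rw [Set.mem_toFinset, mem_orb]
    constructor
    · rintro ⟨g, hg⟩
      exact ⟨g, g.2, hg⟩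
    · rintro ⟨g, hg, h⟩
      exact ⟨⟨g, hg⟩, h⟩
  rw [h2, ← h1, h3]

/-- the number of orbits -/
noncomputable def norb (G : Subgroup (Equiv.Perm (Fin (d ^ 2)))) : ℕ :=
  Nat.card (Quotient (MulAction.orbitRel G (Fin (d ^ 2))))

theorem burn (G : Subgroup (Equiv.Perm (Fin (d ^ 2)))) [Fintype G] :
    ∑ g : G, (fix (g : Equiv.Perm (Fin (d ^ 2))) : ℝ) = norb G * Nat.card G := by
  classical
  have h1 := (burnside2 (G := G) (α := Fin (d ^ 2))).1
  rw [norb, Nat.card_eq_fintype_card, Nat.card_eq_fintype_card]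
  exact_mod_cast h1

theorem sum_orb_le (G : Subgroup (Equiv.Perm (Fin (d ^ 2)))) (B : ℝ)
    (hB : ∀ i, ((orb G i).card : ℝ) ≤ B) : (d : ℝ) ^ 2 ≤ norb G * B := by
  classical
  let Q := Quotient (MulAction.orbitRel G (Fin (d ^ 2)))
  have h1 : (Finset.univ : Finset (Fin (d ^ 2))).card =
      ∑ q : Q, (Finset.univ.filter fun i : Fin (d ^ 2) => (Quotient.mk _ i : Q) = q).card :=
    Finset.card_eq_sum_card_fiberwise (fun _ _ => Finset.mem_univ _)
  have h2 : ∀ q : Q, (((Finset.univ.filter fun i : Fin (d ^ 2) =>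
      (Quotient.mk _ i : Q) = q).card : ℕ) : ℝ) ≤ B := by
    intro q
    refine le_trans ?_ (hB (Quotient.out q))
    have h3 : (Finset.univ.filter fun i : Fin (d ^ 2) => (Quotient.mk _ i : Q) = q).card ≤
        (orb G (Quotient.out q)).card := by
      refine Finset.card_le_card fun i hi => ?_
      rw [Finset.mem_filter] at hi
      rw [mem_orb]
      have h4 : (Quotient.mk _ i : Q) = Quotient.mk _ (Quotient.out q) := by
        rw [hi.2, Quotient.out_eq]
      obtain ⟨g, hg⟩ : i ∈ MulAction.orbit G (Quotient.out q) := Quotient.exact h4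
      exact ⟨g, g.2, hg⟩
    exact_mod_cast h3
  rw [Finset.card_univ, Fintype.card_fin] at h1
  have h5 : (d : ℝ) ^ 2 = ∑ q : Q, (((Finset.univ.filter fun i : Fin (d ^ 2) =>
      (Quotient.mk _ i : Q) = q).card : ℕ) : ℝ) := by
    exact_mod_cast h1
  rw [h5]
  refine (Finset.sum_le_card_nsmul _ _ B fun q _ => h2 q).trans (le_of_eq ?_)
  rw [nsmul_eq_mul, Finset.card_univ, norb, Nat.card_eq_fintype_card]

/-- in a commutative group a stabiliser fixes the whole orbit. -/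
theorem stab_fix {G : Subgroup (Equiv.Perm (Fin (d ^ 2)))}
    (hc : ∀ a ∈ G, ∀ b ∈ G, a * b = b * a) {i j : Fin (d ^ 2)} (hj : j ∈ orb G i)
    {π : Equiv.Perm (Fin (d ^ 2))} (hπ : π ∈ stab G i) : π j = j := by
  obtain ⟨g, hg, rfl⟩ := mem_orb.mp hj
  obtain ⟨h1, h2⟩ := mem_stab.mp hπ
  have h3 := congrArg (fun τ : Equiv.Perm (Fin (d ^ 2)) => τ i) (hc π h1 g hg)
  simp only [Equiv.Perm.mul_apply] at h3
  rw [h3, h2]

/-- the size `u` of an orbit with stabiliser of order `σ ≥ 2`. -/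
theorem orb_bound (hd : 4 ≤ d) (hx : IsMaxETF d x) {G : Subgroup (Equiv.Perm (Fin (d ^ 2)))}
    (hG : ∀ π ∈ G, ∃ M, Ind x M π) (hc : ∀ a ∈ G, ∀ b ∈ G, a * b = b * a) (i : Fin (d ^ 2))
    (h2 : 2 ≤ Nat.card (stab G i)) (y σ : ℝ)
    (hy : y = Real.sqrt ((d : ℝ) + 1)) (hσ : σ = Nat.card (stab G i)) :
    ((orb G i).card : ℝ) * ((σ - 1) * (y ^ 2 - y - 1)) ≤ (y - 1) * (y + 1) ^ 2 * (σ + y - 2) :=
  fix_bound hd hx (stab G i) (fun π hπ => hG π (mem_stab.mp hπ).1) h2 (orb G i)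
    (fun _ hj _ hπ => stab_fix hc hj hπ) y σ hy hσ

/-- the number of lines fixed by a symmetry of order `σ ≥ 2`. -/
theorem fix_order (hd : 4 ≤ d) (hx : IsMaxETF d x) {π : Equiv.Perm (Fin (d ^ 2))}
    (hπ : ∃ M, Ind x M π) (h2 : π ≠ 1) (y σ : ℝ)
    (hy : y = Real.sqrt ((d : ℝ) + 1)) (hσ : σ = orderOf π) :
    (fix π : ℝ) * ((σ - 1) * (y ^ 2 - y - 1)) ≤ (y - 1) * (y + 1) ^ 2 * (σ + y - 2) := by
  obtain ⟨M, hM⟩ := hπ
  have h3 : ∀ τ ∈ Subgroup.zpowers π, ∃ M, Ind x M τ := by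
    intro τ hτ
    rw [mem_zpowers_iff_mem_range_orderOf, Finset.mem_image] at hτ
    obtain ⟨k, -, rfl⟩ := hτ
    exact ⟨M ^ k, hM.pow k⟩
  have h5 : 2 ≤ orderOf π := by
    have h6 := orderOf_pos π
    have h7 : orderOf π ≠ 1 := fun h => h2 (orderOf_eq_one_iff.mp h)
    omega
  refine fix_bound hd hx (Subgroup.zpowers π) h3 (by rw [Nat.card_zpowers]; exact h5)
    (Finset.univ.filter fun i => π i = i) ?_ y σ hy (by rw [Nat.card_zpowers]; exact hσ)
  intro j hj τ hτ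
  rw [Finset.mem_filter] at hj
  rw [mem_zpowers_iff_mem_range_orderOf, Finset.mem_image] at hτ
  obtain ⟨k, -, rfl⟩ := hτ
  have : ∀ k : ℕ, (π ^ k) j = j := by
    intro k
    induction k with
    | zero => simp
    | succ k ih => rw [pow_succ π k, Equiv.Perm.mul_apply, hj.2, ih]
  exact this k

end Run7.h489.AbSym
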