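import Mathlib
import Pool.Agent.Run7.h489.AbSym.Count
import Pool.Agent.R114.SIC.Real

set_option autoImplicit false

/-! Groups of symmetries represented by commuting unitary matrices. -/

namespace Run7.h489.AbSym

open Matrix Pool.Agent.H109R2.SIC Pool.Agent.H109R2.SymGroup Pool.Agent.W864.Sym
  Pool.Agent.TH446.SICG
open scoped ComplexOrder InnerProductSpace

variable {d : ℕ} {x : Fin (d ^ 2) → EuclideanSpace ℂ (Fin d)}

/-- commuting unitaries: at least `d` orbits. -/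
theorem norb_ge (hd : 1 ≤ d) (hx : IsMaxETF d x) (G : Subgroup (Equiv.Perm (Fin (d ^ 2))))
    (U : G → Matrix (Fin d) (Fin d) ℂ) (hU : ∀ g : G, Ind x (U g) g)
    (hcomm : ∀ a b, U a * U b = U b * U a) : (d : ℝ) ≤ norb G := by
  classical
  have : Fintype G := Fintype.ofFinite G
  have h1 := rank_ineq hd hx G U hU (Nat.card (G ⧸ rad hd hx G U hU)) (norb G) rfl
    (by rw [norb, Nat.card_eq_fintype_card])
  have h2 : rad hd hx G U hU = ⊤ := by
    rw [eq_top_iff]
    intro g _ a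
    exact hcomm a g
  have h3 : Nat.card (G ⧸ rad hd hx G U hU) = 1 := by
    rw [h2]
    exact Nat.card_eq_one_iff_unique.mpr ⟨QuotientGroup.subsingleton_quotient_top, ⟨1⟩⟩
  rw [h3, Nat.cast_one, one_mul] at h1
  exact abs_le_of_sq_le_sq' h1 (Nat.cast_nonneg _) |>.2

/-- normalised involutions -/
theorem exists_herm (hd : 1 ≤ d) (hx : IsMaxETF d x) {M : Matrix (Fin d) (Fin d) ℂ}
    {π : Equiv.Perm (Fin (d ^ 2))} (h : Ind x M π) (h2 : π * π = 1) :
    ∃ s : ℂ, star s * s = 1 ∧ (s • M)ᴴ = s • M := by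
  have h3 := h.mul h
  rw [h2] at h3
  obtain ⟨c, hc⟩ := h3.scalar hx
  have hc1 : star c * c = 1 := by
    have h4 := h3.1
    rw [hc, conjTranspose_smul, conjTranspose_one, smul_mul_smul_comm, Matrix.one_mul] at h4
    have h5 := congrFun (congrFun h4 ⟨0, hd⟩) ⟨0, hd⟩
    simpa using h5
  have hc0 : c ≠ 0 := by
    rintro rfl
    rw [mul_zero] at hc1
    exact zero_ne_one hc1
  obtain ⟨s, hs⟩ := IsAlgClosed.exists_pow_nat_eq c⁻¹ (n := 2) two_pos
  have hs1 : star s * s = 1 := by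
    have e1 : (star s * s) ^ 2 = 1 := by
      rw [mul_pow, ← star_pow, hs, star_inv₀, ← mul_inv, hc1, inv_one]
    have e2 : star s * s = ((‖s‖ ^ 2 : ℝ) : ℂ) := by
      rw [Complex.ofReal_pow, ← Complex.conj_mul']
      rfl
    rw [e2] at e1 ⊢
    have e3 : (‖s‖ ^ 2 : ℝ) ^ 2 = 1 := by exact_mod_cast e1
    have e4 : (‖s‖ ^ 2 : ℝ) = 1 := by
      have := sq_nonneg ‖s‖
      nlinarith
    rw [e4, Complex.ofReal_one]
  refine ⟨s, hs1, ?_⟩
  have e1 : (s • M) * (s • M) = 1 := by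
    rw [smul_mul_smul_comm, hc, smul_smul, ← sq, hs, inv_mul_cancel₀ hc0, one_smul]
  have e2 := (h.smul hs1).1
  calc (s • M)ᴴ = (s • M)ᴴ * ((s • M) * (s • M)) := by rw [e1, Matrix.mul_one]
    _ = ((s • M)ᴴ * (s • M)) * (s • M) := by rw [Matrix.mul_assoc]
    _ = s • M := by rw [e2, Matrix.one_mul]

/-- the orbits of a group of commuting involutions are real systems. -/
theorem invol_orb (hd : 1 ≤ d) (hx : IsMaxETF d x) (G : Subgroup (Equiv.Perm (Fin (d ^ 2))))
    (U : G → Matrix (Fin d) (Fin d) ℂ) (hU : ∀ g : G, Ind x (U g) g)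
    (hcomm : ∀ a b, U a * U b = U b * U a) (h2 : ∀ g ∈ G, g * g = 1) (i : Fin (d ^ 2)) :
    (orb G i).card ≤ d := by
  classical
  have h3 : ∀ g : G, ∃ s : ℂ, star s * s = 1 ∧ (s • U g)ᴴ = s • U g := fun g =>
    exists_herm hd hx (hU g) (h2 g g.2)
  choose s hs hW using h3
  have h4 : ∀ j : Fin (d ^ 2), ∃ (g : G) (c : ℂ), j ∈ orb G i →
      star c * c = 1 ∧ (s g • U g) *ᵥ (x i).ofLp = c • (x j).ofLp := by
    intro j
    by_cases hj : j ∈ orb G i
    · obtain ⟨g, hg, hgj⟩ := mem_orb.mp hj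
      obtain ⟨c, hc⟩ := ((hU ⟨g, hg⟩).smul (hs ⟨g, hg⟩)).2 i
      have e1 : (((⟨g, hg⟩ : G) : Equiv.Perm (Fin (d ^ 2)))) i = j := hgj
      rw [e1] at hc
      exact ⟨⟨g, hg⟩, c, fun _ => ⟨coef hx ((hU ⟨g, hg⟩).smul (hs ⟨g, hg⟩)).1 hc, hc⟩⟩
    · exact ⟨1, 0, fun h => absurd h hj⟩
  choose g c h5 using h4
  have hreal : Pool.Agent.R114.SIC.RealPhases x (orb G i) c := by
    constructor
    · intro j hj
      have e1 := (h5 j hj).1
      have e2 : star (c j) * c j = ((‖c j‖ ^ 2 : ℝ) : ℂ) := by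
        rw [Complex.ofReal_pow, ← Complex.conj_mul']
        rfl
      rw [e2] at e1
      have e3 : (‖c j‖ : ℝ) ^ 2 = 1 := by exact_mod_cast e1
      have := norm_nonneg (c j)
      nlinarith
    · intro j hj k hk
      set A := s (g j) • U (g j) with hA
      set B := s (g k) • U (g k) with hB
      have hAh : Aᴴ = A := hW (g j)
      have hBh : Bᴴ = B := hW (g k)
      have hAB : A * B = B * A := by
        rw [hA, hB, smul_mul_smul_comm, smul_mul_smul_comm, hcomm, mul_comm (s (g j))]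
      have e1 : (inner ℂ (c j • x j) (c k • x k) : ℂ) =
          star (x i).ofLp ⬝ᵥ ((A * B) *ᵥ (x i).ofLp) := by
        rw [← mulVec_mulVec, (h5 k hk).2, inner_smul_left, inner_smul_right, ← dot_eq_inner,
          Matrix.dotProduct_mulVec]
        have e2 : star (x i).ofLp ᵥ* A = star (A *ᵥ (x i).ofLp) := by
          rw [star_mulVec, hAh]
        rw [e2, (h5 j hj).2, star_smul, smul_dotProduct, dotProduct_smul]
        rfl
      have e3 : star (star (x i).ofLp ⬝ᵥ ((A * B) *ᵥ (x i).ofLp)) =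
          star (x i).ofLp ⬝ᵥ ((A * B) *ᵥ (x i).ofLp) := by
        rw [← Matrix.star_dotProduct, star_mulVec, conjTranspose_mul, hAh, hBh, ← hAB,
          ← Matrix.dotProduct_mulVec]
      rw [e1]
      exact Complex.conj_eq_iff_im.mp e3
  exact Pool.Agent.R114.SIC.real_card_le hx hd hreal

/-- numerical estimate for the orbits of a group of large order. -/
theorem orb_small {u σ N L A y : ℝ} (h : u * ((σ - 1) * L) ≤ A * (σ + y - 2)) (hu : u * σ = N)
    (hσ : 2 ≤ σ) (hN : 2 * A * y < N * L) (hA : 0 < A) : u * L ≤ 2 * A := by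
  by_contra hcon
  push Not at hcon
  have h1 : σ ≤ y := by
    have e1 : (σ - 1) * (2 * A) ≤ (σ - 1) * (u * L) :=
      mul_le_mul_of_nonneg_left hcon.le (by linarith)
    have e2 : A * (σ - y) ≤ 0 := by nlinarith
    by_contra h3
    push Not at h3
    have := mul_pos hA (sub_pos.mpr h3)
    linarith
  have h2 : (σ - 1) * (N * L) ≤ (σ - 1) * (2 * A * y) := by
    have e1 : σ * (u * ((σ - 1) * L)) ≤ σ * (A * (σ + y - 2)) :=
      mul_le_mul_of_nonneg_left h (by linarith)
    have e2 : A * ((σ - 2) * (σ - y)) ≤ 0 := by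
      apply mul_nonpos_of_nonneg_of_nonpos hA.le
      exact mul_nonpos_of_nonneg_of_nonpos (by linarith) (by linarith)
    rw [← hu]
    nlinarith
  have h3 := le_of_mul_le_mul_left h2 (by linarith)
  linarith

end Run7.h489.AbSym
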