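import Mathlib
import Pool.Agent.Run7.h489.AbSym.Comm

set_option autoImplicit false

/-! Groups of symmetries represented by commuting unitary matrices: the bound. -/

namespace Run7.h489.AbSym

open Matrix Pool.Agent.H109R2.SIC Pool.Agent.H109R2.SymGroup Pool.Agent.W864.Sym
  Pool.Agent.TH446.SICG
open scoped ComplexOrder InnerProductSpace

variable {d : ℕ} {x : Fin (d ^ 2) → EuclideanSpace ℂ (Fin d)}

theorem y_facts (hd : 4 ≤ d) {y : ℝ} (hy : y = Real.sqrt ((d : ℝ) + 1)) :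
    2 < y ∧ (d : ℝ) = y ^ 2 - 1 := by
  have hy2 : y ^ 2 = (d : ℝ) + 1 := by rw [hy]; exact Real.sq_sqrt (by positivity)
  have hd4 : (4 : ℝ) ≤ d := by exact_mod_cast hd
  have hy0 : 0 ≤ y := by rw [hy]; exact Real.sqrt_nonneg _
  exact ⟨by nlinarith, by linarith⟩

theorem fix_two (hd : 4 ≤ d) (hx : IsMaxETF d x) {π : Equiv.Perm (Fin (d ^ 2))}
    (hπ : ∃ M, Ind x M π) (h2 : π ≠ 1) {y : ℝ} (hy : y = Real.sqrt ((d : ℝ) + 1)) :
    (fix π : ℝ) * (y ^ 2 - y - 1) ≤ (y - 1) * (y + 1) ^ 2 * y := by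
  obtain ⟨hy2, -⟩ := y_facts hd hy
  have h1 := fix_order hd hx hπ h2 y (orderOf π) hy rfl
  have h5 : 2 ≤ orderOf π := by
    have h6 := orderOf_pos π
    have h7 : orderOf π ≠ 1 := fun h => h2 (orderOf_eq_one_iff.mp h)
    omega
  have h6 : (2 : ℝ) ≤ orderOf π := by exact_mod_cast h5
  set σ : ℝ := (orderOf π : ℝ)
  have hA : 0 ≤ (y - 1) * (y + 1) ^ 2 := mul_nonneg (by linarith) (by positivity)
  have e0 : 0 ≤ (y - 1) * (σ - 2) := mul_nonneg (by linarith) (by linarith)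
  have h7 : (y - 1) * (y + 1) ^ 2 * (σ + y - 2) ≤ (y - 1) * (y + 1) ^ 2 * (y * (σ - 1)) :=
    mul_le_mul_of_nonneg_left (by linarith) hA
  have h8 : (σ - 1) * ((fix π : ℝ) * (y ^ 2 - y - 1)) ≤
      (σ - 1) * ((y - 1) * (y + 1) ^ 2 * y) := by linarith
  exact le_of_mul_le_mul_left h8 (by linarith)

theorem fix_three (hd : 4 ≤ d) (hx : IsMaxETF d x) {π : Equiv.Perm (Fin (d ^ 2))}
    (hπ : ∃ M, Ind x M π) (h2 : π * π ≠ 1) {y : ℝ} (hy : y = Real.sqrt ((d : ℝ) + 1)) :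
    2 * ((fix π : ℝ) * (y ^ 2 - y - 1)) ≤ (y - 1) * (y + 1) ^ 2 * (y + 1) := by
  obtain ⟨hy2, -⟩ := y_facts hd hy
  have h1 := fix_order hd hx hπ (by rintro rfl; exact h2 (one_mul 1)) y (orderOf π) hy rfl
  have h5 : 3 ≤ orderOf π := by
    have h6 := orderOf_pos π
    have h7 : orderOf π ≠ 1 := fun h => h2 (by rw [orderOf_eq_one_iff.mp h, one_mul])
    have h8 : orderOf π ≠ 2 := fun h => h2 (by
      have e := pow_orderOf_eq_one π
      rw [h] at e
      exact (pow_two π).symm.trans e)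
    omega
  have h6 : (3 : ℝ) ≤ orderOf π := by exact_mod_cast h5
  set σ : ℝ := (orderOf π : ℝ)
  have hA : 0 ≤ (y - 1) * (y + 1) ^ 2 := mul_nonneg (by linarith) (by positivity)
  have e0 : 0 ≤ (y - 1) * (σ - 3) := mul_nonneg (by linarith) (by linarith)
  have h7 : (y - 1) * (y + 1) ^ 2 * (2 * (σ + y - 2)) ≤
      (y - 1) * (y + 1) ^ 2 * ((y + 1) * (σ - 1)) :=
    mul_le_mul_of_nonneg_left (by linarith) hA
  have h8 : (σ - 1) * (2 * ((fix π : ℝ) * (y ^ 2 - y - 1))) ≤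
      (σ - 1) * ((y - 1) * (y + 1) ^ 2 * (y + 1)) := by linarith
  exact le_of_mul_le_mul_left h8 (by linarith)

theorem fix_four (hd : 4 ≤ d) (hx : IsMaxETF d x) {π : Equiv.Perm (Fin (d ^ 2))}
    (hπ : ∃ M, Ind x M π) (h2 : π * π ≠ 1) (h3 : π ^ 3 ≠ 1) {y : ℝ}
    (hy : y = Real.sqrt ((d : ℝ) + 1)) :
    3 * ((fix π : ℝ) * (y ^ 2 - y - 1)) ≤ (y - 1) * (y + 1) ^ 2 * (y + 2) := by
  obtain ⟨hy2, -⟩ := y_facts hd hy
  have h1 := fix_order hd hx hπ (by rintro rfl; exact h2 (one_mul 1)) y (orderOf π) hy rfl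
  have h5 : 4 ≤ orderOf π := by
    have h6 := orderOf_pos π
    have h7 : orderOf π ≠ 1 := fun h => h2 (by rw [orderOf_eq_one_iff.mp h, one_mul])
    have h8 : orderOf π ≠ 2 := fun h => h2 (by
      have e := pow_orderOf_eq_one π
      rw [h] at e
      exact (pow_two π).symm.trans e)
    have h9 : orderOf π ≠ 3 := fun h => h3 (by
      have e := pow_orderOf_eq_one π
      rwa [h] at e)
    omega
  have h6 : (4 : ℝ) ≤ orderOf π := by exact_mod_cast h5
  set σ : ℝ := (orderOf π : ℝ)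
  have hA : 0 ≤ (y - 1) * (y + 1) ^ 2 := mul_nonneg (by linarith) (by positivity)
  have e0 : 0 ≤ (y - 1) * (σ - 4) := mul_nonneg (by linarith) (by linarith)
  have h7 : (y - 1) * (y + 1) ^ 2 * (3 * (σ + y - 2)) ≤
      (y - 1) * (y + 1) ^ 2 * ((y + 2) * (σ - 1)) :=
    mul_le_mul_of_nonneg_left (by linarith) hA
  have h8 : (σ - 1) * (3 * ((fix π : ℝ) * (y ^ 2 - y - 1))) ≤
      (σ - 1) * ((y - 1) * (y + 1) ^ 2 * (y + 2)) := by linarith
  exact le_of_mul_le_mul_left h8 (by linarith)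

/-- all fixed lines, crudely. -/
theorem sum_fix_le (hd : 4 ≤ d) (hx : IsMaxETF d x) (G : Subgroup (Equiv.Perm (Fin (d ^ 2))))
    (hG : ∀ π ∈ G, ∃ M, Ind x M π) {y : ℝ} (hy : y = Real.sqrt ((d : ℝ) + 1)) :
    (norb G * Nat.card G : ℝ) * (y ^ 2 - y - 1) ≤
      (d : ℝ) ^ 2 * (y ^ 2 - y - 1) + Nat.card G * ((y - 1) * (y + 1) ^ 2 * y) := by
  classical
  have : Fintype G := Fintype.ofFinite G
  obtain ⟨hy2, -⟩ := y_facts hd hy
  have hA : 0 ≤ (y - 1) * (y + 1) ^ 2 * y := by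
    have : 0 ≤ (y - 1) * (y + 1) ^ 2 := mul_nonneg (by linarith) (by positivity)
    exact mul_nonneg this (by linarith)
  rw [← burn G, Finset.sum_mul, ← Finset.add_sum_erase Finset.univ _ (Finset.mem_univ (1 : G))]
  refine add_le_add (le_of_eq ?_) ?_
  · have : fix ((1 : G) : Equiv.Perm (Fin (d ^ 2))) = d ^ 2 := fix_one
    rw [this]; push_cast; ring
  · refine (Finset.sum_le_card_nsmul _ _ ((y - 1) * (y + 1) ^ 2 * y) fun g hg => ?_).trans ?_
    · refine fix_two hd hx (hG g g.2) (fun h => ?_) hy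
      exact (Finset.ne_of_mem_erase hg) (Subtype.ext h)
    · rw [nsmul_eq_mul]
      refine mul_le_mul_of_nonneg_right ?_ hA
      rw [Nat.card_eq_fintype_card]
      exact_mod_cast Finset.card_le_univ _

/-- the case of exponent two -/
theorem invol_bound (hd : 4 ≤ d) (hx : IsMaxETF d x) (G : Subgroup (Equiv.Perm (Fin (d ^ 2))))
    (hc : ∀ a ∈ G, ∀ b ∈ G, a * b = b * a)
    (U : G → Matrix (Fin d) (Fin d) ℂ) (hU : ∀ g : G, Ind x (U g) g)
    (hcomm : ∀ a b, U a * U b = U b * U a) (h2 : ∀ g ∈ G, g * g = 1)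
    {y : ℝ} (hy : y = Real.sqrt ((d : ℝ) + 1)) :
    (Nat.card G : ℝ) * (d - 6 * y - 3) ≤ 3 * d * (d - y) := by
  classical
  obtain ⟨hy2, hdy⟩ := y_facts hd hy
  have hG : ∀ π ∈ G, ∃ M, Ind x M π := fun π hπ => ⟨U ⟨π, hπ⟩, hU ⟨π, hπ⟩⟩
  set N : ℝ := (Nat.card G : ℝ) with hN
  have hN0 : 0 < N := by rw [hN]; exact_mod_cast Nat.card_pos
  have hd0 : (0 : ℝ) < d := by exact_mod_cast (by omega : 0 < d)
  rw [show (d : ℝ) - 6 * y - 3 = y ^ 2 - 6 * y - 4 by rw [hdy]; ring,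
    show 3 * (d : ℝ) * (d - y) = 3 * d * (y ^ 2 - y - 1) by nth_rewrite 2 [hdy]; ring]
  set L : ℝ := y ^ 2 - y - 1 with hL
  have hL0 : 0 < L := by rw [hL]; nlinarith
  by_contra hcon
  push Not at hcon
  have hpos : 0 < y ^ 2 - 6 * y - 4 := by
    by_contra h
    push Not at h
    have : N * (y ^ 2 - 6 * y - 4) ≤ 0 := mul_nonpos_of_nonneg_of_nonpos hN0.le h
    have : 0 < 3 * (d : ℝ) * L := by positivity
    linarith
  have hy6 : 6 < y := by nlinarith
  have hN3 : 3 * (d : ℝ) < N := by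
    have h1 : 3 * (d : ℝ) * (y ^ 2 - 6 * y - 4) < N * (y ^ 2 - 6 * y - 4) := by
      refine lt_of_le_of_lt ?_ hcon
      exact mul_le_mul_of_nonneg_left (by rw [hL]; linarith) (by positivity)
    exact lt_of_mul_lt_mul_right h1 hpos.le
  set A : ℝ := (y - 1) * (y + 1) ^ 2 with hA
  have hAd : A = d * (y + 1) := by rw [hA, hdy]; ring
  have hA0 : 0 < A := by rw [hAd]; positivity
  have hfree : ∀ i, 2 ≤ Nat.card (stab G i) := by
    intro i
    by_contra h
    have h3 : Nat.card (stab G i) = 1 := by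
      have : 0 < Nat.card (stab G i) := Nat.card_pos
      omega
    have h4 := orb_stab G i
    rw [h3, mul_one] at h4
    have h5 := invol_orb (by omega) hx G U hU hcomm h2 i
    rw [h4] at h5
    have h6 : N ≤ d := by rw [hN]; exact_mod_cast h5
    linarith
  have hNL : 2 * A * y < N * L := by
    have h1 : 2 * A * y ≤ 3 * d * L := by
      rw [hAd, hL]
      have : (d : ℝ) * (2 * y * (y + 1)) ≤ d * (3 * (y ^ 2 - y - 1)) :=
        mul_le_mul_of_nonneg_left (by nlinarith) hd0.le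
      linarith
    have h2 : 3 * (d : ℝ) * L < N * L := mul_lt_mul_of_pos_right hN3 hL0
    linarith
  have h3 : ∀ i, ((orb G i).card : ℝ) ≤ 2 * A / L := by
    intro i
    rw [le_div_iff₀ hL0]
    have h4 := orb_bound hd hx hG hc i (hfree i) y (Nat.card (stab G i)) hy rfl
    refine orb_small h4 ?_ (by exact_mod_cast hfree i) hNL hA0
    rw [hN]
    exact_mod_cast orb_stab G i
  have h4 := sum_orb_le G (2 * A / L) h3
  rw [mul_div_assoc', le_div_iff₀ hL0] at h4
  have h5 := sum_fix_le hd hx G hG hy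
  rw [← hN, ← hL, ← hA] at h5
  set t : ℝ := (norb G : ℝ) with ht
  have ht0 : 0 ≤ t := Nat.cast_nonneg _
  -- `3 L t ≤ L d + 3 A y`
  have h6 : 3 * L * t ≤ L * d + 3 * (A * y) := by
    have h7 : N * (3 * L * t) ≤ N * (L * d + 3 * (A * y)) := by
      have h8 : 3 * (d : ℝ) * (d * L) ≤ N * (d * L) :=
        mul_le_mul_of_nonneg_right hN3.le (by positivity)
      nlinarith
    exact le_of_mul_le_mul_left h7 hN0
  have h7 : 3 * L * ((d : ℝ) ^ 2 * L) ≤ 2 * A * (L * d + 3 * (A * y)) := by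
    calc 3 * L * ((d : ℝ) ^ 2 * L) ≤ 3 * L * (t * (2 * A)) :=
          mul_le_mul_of_nonneg_left h4 (by positivity)
      _ = 2 * A * (3 * L * t) := by ring
      _ ≤ _ := mul_le_mul_of_nonneg_left h6 (by positivity)
  rw [hAd] at h7
  have h8 : (d : ℝ) ^ 2 * (3 * L ^ 2) ≤ (d : ℝ) ^ 2 * (2 * (y + 1) * (L + 3 * (y + 1) * y)) := by
    nlinarith
  have h9 := le_of_mul_le_mul_left h8 (by positivity)
  rw [hL] at h9
  obtain ⟨v, hv⟩ : ∃ v, v = y - 6 := ⟨_, rfl⟩
  have hv0 : 0 < v := by linarith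
  have hyv : y = v + 6 := by linarith
  rw [hyv] at h9
  have h10 : 0 < v ^ 4 := by positivity
  have h11 : 0 < v ^ 3 := by positivity
  have h12 : 0 < v ^ 2 := by positivity
  nlinarith

/-- the elements of order at most two -/
def two (G : Subgroup (Equiv.Perm (Fin (d ^ 2)))) (hc : ∀ a ∈ G, ∀ b ∈ G, a * b = b * a) :
    Subgroup G where
  carrier := {g | g * g = 1}
  one_mem' := one_mul 1
  mul_mem' := by
    intro a b ha hb
    have h1 : b * a = a * b := Subtype.ext (hc b b.2 a a.2)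
    change a * b * (a * b) = 1
    calc a * b * (a * b) = a * (b * a) * b := by group
      _ = (a * a) * (b * b) := by rw [h1]; group
      _ = 1 := by rw [show a * a = 1 from ha, show b * b = 1 from hb, one_mul]
  inv_mem' := by
    intro a ha
    change a⁻¹ * a⁻¹ = 1
    rw [← _root_.mul_inv_rev, show a * a = 1 from ha, inv_one]

/-- the case where the exponent is not two -/
theorem other_bound (hd : 4 ≤ d) (hx : IsMaxETF d x) (G : Subgroup (Equiv.Perm (Fin (d ^ 2))))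
    (hc : ∀ a ∈ G, ∀ b ∈ G, a * b = b * a)
    (U : G → Matrix (Fin d) (Fin d) ℂ) (hU : ∀ g : G, Ind x (U g) g)
    (hcomm : ∀ a b, U a * U b = U b * U a) {g₀ : Equiv.Perm (Fin (d ^ 2))} (hg₀ : g₀ ∈ G)
    (h2 : g₀ * g₀ ≠ 1) {y : ℝ} (hy : y = Real.sqrt ((d : ℝ) + 1)) :
    (Nat.card G : ℝ) * (d - 6 * y - 3) ≤ 3 * d * (d - y) := by
  classical
  have : Fintype G := Fintype.ofFinite G
  obtain ⟨hy2, hdy⟩ := y_facts hd hy
  have hG : ∀ π ∈ G, ∃ M, Ind x M π := fun π hπ => ⟨U ⟨π, hπ⟩, hU ⟨π, hπ⟩⟩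
  set N : ℝ := (Nat.card G : ℝ) with hN
  have hN0 : 0 < N := by rw [hN]; exact_mod_cast Nat.card_pos
  have hd0 : (0 : ℝ) < d := by exact_mod_cast (by omega : 0 < d)
  rw [show (d : ℝ) - 6 * y - 3 = y ^ 2 - 6 * y - 4 by rw [hdy]; ring,
    show 3 * (d : ℝ) * (d - y) = 3 * d * (y ^ 2 - y - 1) by nth_rewrite 2 [hdy]; ring]
  set L : ℝ := y ^ 2 - y - 1 with hL
  have hL0 : 0 < L := by rw [hL]; nlinarith
  set A : ℝ := (y - 1) * (y + 1) ^ 2 with hA
  have hAd : A = d * (y + 1) := by rw [hA, hdy]; ring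
  have hA0 : 0 < A := by rw [hAd]; positivity
  set E : Subgroup G := two G hc with hE
  have hEmem : ∀ g : G, g ∈ E ↔ g * g = 1 := fun g => Iff.rfl
  set e : ℝ := (Nat.card E : ℝ) with he
  have hidx := E.card_mul_index
  have hne : E.index ≠ 1 := by
    intro h
    rw [Subgroup.index_eq_one] at h
    have h3 : (⟨g₀, hg₀⟩ : G) ∈ E := by rw [h]; exact Subgroup.mem_top _
    exact h2 (congrArg Subtype.val h3)
  have hidx0 : E.index ≠ 0 := Subgroup.index_ne_zero_of_finite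
  -- the weight of the elements outside `E`
  have key : ∃ w : ℝ, w ≤ y ∧ (∀ g : G, g ∉ E →
      (fix (g : Equiv.Perm (Fin (d ^ 2))) : ℝ) * L ≤ A * w) ∧
      e * y + (N - e) * w ≤ N * ((2 * y + 1) / 3) := by
    by_cases hi2 : E.index = 2
    · refine ⟨(y + 2) / 3, by linarith, fun g hg => ?_, ?_⟩
      · have h3 : (g : Equiv.Perm (Fin (d ^ 2))) * g ≠ 1 := fun h => hg (Subtype.ext h)
        have h4 : (g : Equiv.Perm (Fin (d ^ 2))) ^ 3 ≠ 1 := by
          intro h
          have h5 : g * g ∈ E := Subgroup.mul_self_mem_of_index_two hi2 g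
          have h6 : g ^ 3 = 1 := Subtype.ext (by rw [Subgroup.coe_pow]; exact h)
          have h7 : g = (g * g)⁻¹ := by
            rw [eq_inv_iff_mul_eq_one, ← h6, ← mul_assoc]
            exact (pow_three' g).symm
          exact hg (by rw [h7]; exact E.inv_mem h5)
        have h5 := fix_four hd hx (hG g g.2) h3 h4 hy
        linarith
      · have h3 : N = e * 2 := by
          rw [hN, he, ← hidx, hi2]; push_cast; ring
        rw [h3]
        linarith
    · have hi3 : 3 ≤ E.index := by omega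
      refine ⟨(y + 1) / 2, by linarith, fun g hg => ?_, ?_⟩
      · have h3 : (g : Equiv.Perm (Fin (d ^ 2))) * g ≠ 1 := fun h => hg (Subtype.ext h)
        have h5 := fix_three hd hx (hG g g.2) h3 hy
        linarith
      · have h3 : e * 3 ≤ N := by
          rw [hN, he, ← hidx]
          exact_mod_cast Nat.mul_le_mul_left _ hi3
        nlinarith
  obtain ⟨w, hwy, hw, hsum⟩ := key
  have hburn := burn G
  have hsumE : (∑ g : G, (fix (g : Equiv.Perm (Fin (d ^ 2))) : ℝ)) * L ≤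
      (d : ℝ) ^ 2 * L + A * (e * y + (N - e) * w) := by
    rw [Finset.sum_mul, ← Finset.sum_filter_add_sum_filter_not Finset.univ (fun g : G => g ∈ E)]
    have hcardE : (((Finset.univ.filter fun g : G => g ∈ E).card : ℕ) : ℝ) = e := by
      rw [he, Nat.card_eq_fintype_card, Fintype.card_subtype]
    have hcardE' : (((Finset.univ.filter fun g : G => ¬ g ∈ E).card : ℕ) : ℝ) = N - e := by
      have h3 := Finset.card_filter_add_card_filter_not (s := (Finset.univ : Finset G))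
        (fun g : G => g ∈ E)
      rw [Finset.card_univ] at h3
      rw [hN, Nat.card_eq_fintype_card, ← hcardE, ← h3]
      push_cast
      ring
    have h1 : ∑ g ∈ Finset.univ.filter (fun g : G => g ∈ E),
        (fix (g : Equiv.Perm (Fin (d ^ 2))) : ℝ) * L ≤ (d : ℝ) ^ 2 * L + e * (A * y) := by
      have h3 : (1 : G) ∈ Finset.univ.filter (fun g : G => g ∈ E) := by
        rw [Finset.mem_filter]
        exact ⟨Finset.mem_univ _, E.one_mem⟩
      rw [← Finset.add_sum_erase _ _ h3]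
      refine add_le_add (le_of_eq ?_) ?_
      · have : fix ((1 : G) : Equiv.Perm (Fin (d ^ 2))) = d ^ 2 := fix_one
        rw [this]; push_cast; ring
      · refine (Finset.sum_le_card_nsmul _ _ (A * y) fun g hg => ?_).trans ?_
        · exact fix_two hd hx (hG g g.2) (fun h => Finset.ne_of_mem_erase hg (Subtype.ext h)) hy
        · rw [nsmul_eq_mul]
          refine mul_le_mul_of_nonneg_right ?_ (mul_nonneg hA0.le (by linarith))
          rw [← hcardE]
          exact_mod_cast Finset.card_le_card (Finset.erase_subset _ _)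
    have h2 : ∑ g ∈ Finset.univ.filter (fun g : G => ¬ g ∈ E),
        (fix (g : Equiv.Perm (Fin (d ^ 2))) : ℝ) * L ≤ (N - e) * (A * w) := by
      refine (Finset.sum_le_card_nsmul _ _ (A * w) fun g hg => ?_).trans (le_of_eq ?_)
      · exact hw g (Finset.mem_filter.mp hg).2
      · rw [nsmul_eq_mul, hcardE']
    calc _ ≤ _ := add_le_add h1 h2
      _ = _ := by ring
  rw [hburn, ← hN] at hsumE
  have ht := norb_ge (by omega) hx G U hU hcomm
  have h3 : (d : ℝ) * N * L ≤ (d : ℝ) ^ 2 * L + d * (y + 1) * (N * ((2 * y + 1) / 3)) := by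
    calc (d : ℝ) * N * L ≤ norb G * N * L := by
          have := mul_le_mul_of_nonneg_right ht (mul_nonneg hN0.le hL0.le)
          linarith
      _ ≤ (d : ℝ) ^ 2 * L + A * (e * y + (N - e) * w) := hsumE
      _ ≤ _ := by
        rw [← hAd]
        have := mul_le_mul_of_nonneg_left hsum hA0.le
        linarith
  have h4 : (d : ℝ) * (N * (y ^ 2 - 6 * y - 4)) ≤ d * (3 * d * L) := by
    have h5 : (d : ℝ) * N * (3 * L - (y + 1) * (2 * y + 1)) ≤ 3 * ((d : ℝ) ^ 2 * L) := by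
      linarith
    have h6 : 3 * L - (y + 1) * (2 * y + 1) = y ^ 2 - 6 * y - 4 := by rw [hL]; ring
    rw [h6] at h5
    linarith
  exact le_of_mul_le_mul_left h4 hd0

/-- **Commuting unitary symmetries.** -/
theorem commuting_bound (hd : 4 ≤ d) (hx : IsMaxETF d x)
    (G : Subgroup (Equiv.Perm (Fin (d ^ 2)))) (hc : ∀ a ∈ G, ∀ b ∈ G, a * b = b * a)
    (U : G → Matrix (Fin d) (Fin d) ℂ) (hU : ∀ g : G, Ind x (U g) g)
    (hcomm : ∀ a b, U a * U b = U b * U a) :
    (Nat.card G : ℝ) * (d - 6 * Real.sqrt ((d : ℝ) + 1) - 3) ≤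
      3 * d * (d - Real.sqrt ((d : ℝ) + 1)) := by
  by_cases h : ∀ g ∈ G, g * g = 1
  · exact invol_bound hd hx G hc U hU hcomm h rfl
  · push Not at h
    obtain ⟨g, hg, h2⟩ := h
    exact other_bound hd hx G hc U hU hcomm hg h2 rfl

end Run7.h489.AbSym
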