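import Mathlib
import Pool.Agent.Run7.h489.AbSym.Bound

set_option autoImplicit false

/-! Commutative groups of symmetries of a maximal equiangular tight frame. -/

namespace Run7.h489.AbSym

open Matrix Pool.Agent.H109R2.SIC Pool.Agent.H109R2.SymGroup Pool.Agent.W864.Sym
  Pool.Agent.TH446.SICG
open scoped ComplexOrder InnerProductSpace

variable {d : ℕ} {x : Fin (d ^ 2) → EuclideanSpace ℂ (Fin d)}

theorem fix_le_F (hd : 1 ≤ d) (hx : IsMaxETF d x) {π : Equiv.Perm (Fin (d ^ 2))}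
    (hπ : ∃ M, Ind x M π) (h2 : π ≠ 1) : (fix π : ℝ) ≤ (1 + Real.sqrt ((d : ℝ) + 1)) ^ 2 := by
  obtain ⟨M, hM⟩ := hπ
  have h1 := trace_bound hd hx h2 hM
  have h3 : Real.sqrt (fix π : ℝ) ^ 2 ≤ (1 + Real.sqrt ((d : ℝ) + 1)) ^ 2 :=
    pow_le_pow_left₀ (Real.sqrt_nonneg _) h1 2
  rwa [Real.sq_sqrt (by positivity)] at h3

/-- the fixed lines of the elements of a commutative group. -/
theorem sum_fix_rad (hd : 1 ≤ d) (hx : IsMaxETF d x) (G : Subgroup (Equiv.Perm (Fin (d ^ 2))))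
    (hc : ∀ a ∈ G, ∀ b ∈ G, a * b = b * a)
    (U : G → Matrix (Fin d) (Fin d) ℂ) (hU : ∀ g : G, Ind x (U g) g) :
    (norb G * Nat.card G : ℝ) ≤ (d : ℝ) ^ 2 +
      ((Nat.card (rad hd hx G U hU) : ℝ) - 1) * (1 + Real.sqrt ((d : ℝ) + 1)) ^ 2 := by
  classical
  have : Fintype G := Fintype.ofFinite G
  set R := rad hd hx G U hU with hR
  have hG : ∀ π ∈ G, ∃ M, Ind x M π := fun π hπ => ⟨U ⟨π, hπ⟩, hU ⟨π, hπ⟩⟩
  have hzero : ∀ g : G, g ∉ R → fix (g : Equiv.Perm (Fin (d ^ 2))) = 0 := by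
    intro g hg
    by_contra h
    obtain ⟨i, hi⟩ := Finset.card_pos.mp (Nat.pos_of_ne_zero h)
    have hi' : (g : Equiv.Perm (Fin (d ^ 2))) i = i := (Finset.mem_filter.mp hi).2
    exact hg fun a => stab_comm hd hx (hU g) (hU a) (hc g g.2 a a.2) hi'
  rw [← burn G, ← Finset.sum_filter_add_sum_filter_not Finset.univ (fun g : G => g ∈ R)]
  have h1 : ∑ g ∈ Finset.univ.filter (fun g : G => ¬ g ∈ R),
      (fix (g : Equiv.Perm (Fin (d ^ 2))) : ℝ) = 0 := by
    refine Finset.sum_eq_zero fun g hg => ?_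
    rw [hzero g (Finset.mem_filter.mp hg).2, Nat.cast_zero]
  rw [h1, add_zero]
  have h3 : (1 : G) ∈ Finset.univ.filter (fun g : G => g ∈ R) := by
    rw [Finset.mem_filter]
    exact ⟨Finset.mem_univ _, R.one_mem⟩
  rw [← Finset.add_sum_erase _ _ h3]
  refine add_le_add (le_of_eq ?_) ?_
  · have : fix ((1 : G) : Equiv.Perm (Fin (d ^ 2))) = d ^ 2 := fix_one
    rw [this]; push_cast; ring
  · refine (Finset.sum_le_card_nsmul _ _ ((1 + Real.sqrt ((d : ℝ) + 1)) ^ 2)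
      fun g hg => ?_).trans (le_of_eq ?_)
    · exact fix_le_F hd hx (hG g g.2) (fun h => Finset.ne_of_mem_erase hg (Subtype.ext h))
    · rw [nsmul_eq_mul, Finset.card_erase_of_mem h3]
      congr 1
      have h4 : (Finset.univ.filter fun g : G => g ∈ R).card = Nat.card R := by
        rw [Nat.card_eq_fintype_card, Fintype.card_subtype]
      rw [h4, Nat.cast_sub Nat.card_pos, Nat.cast_one]

theorem card_stab_le (hd : 1 ≤ d) (hx : IsMaxETF d x) (G : Subgroup (Equiv.Perm (Fin (d ^ 2))))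
    (hc : ∀ a ∈ G, ∀ b ∈ G, a * b = b * a)
    (U : G → Matrix (Fin d) (Fin d) ℂ) (hU : ∀ g : G, Ind x (U g) g) (i : Fin (d ^ 2)) :
    Nat.card (stab G i) ≤ Nat.card (rad hd hx G U hU) := by
  rw [card_stab]
  have h1 : MulAction.stabilizer G i ≤ rad hd hx G U hU := by
    intro g hg a
    exact stab_comm hd hx (hU g) (hU a) (hc g g.2 a a.2) hg
  exact Nat.card_le_card_of_injective _ (Subgroup.inclusion_injective h1)

theorem le_of_sq {a b : ℝ} (h : a ^ 2 ≤ b ^ 2) (hb : 0 ≤ b) : a ≤ b := by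
  by_contra hcon
  push Not at hcon
  nlinarith

/-- numerical part, many commutators -/
theorem num1 {y N q σ : ℝ} (hy : 20 ≤ y) (hN : 0 ≤ N)
    (h3 : N * (y ^ 2 - y - 1) ≤ 2 * ((y - 1) * (y + 1) ^ 2) * (σ + y - 2))
    (hσ : 2 ≤ σ) (hσN : σ * q ≤ N) (hq : 5 * y ≤ q) : N ≤ 4 * y ^ 2 := by
  have hy0 : 0 < y := by linarith
  set A : ℝ := (y - 1) * (y + 1) ^ 2 with hA
  have hA0 : 0 < A := by rw [hA]; apply mul_pos (by linarith); positivity
  have e1 : σ * (5 * y) ≤ N := le_trans (mul_le_mul_of_nonneg_left hq (by linarith)) hσN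
  have e2 : 5 * y * (N * (y ^ 2 - y - 1)) ≤ 2 * A * (N + 5 * y * (y - 2)) := by
    have e2a := mul_le_mul_of_nonneg_left h3 (by linarith : (0 : ℝ) ≤ 5 * y)
    have e2b : 2 * A * (5 * y * σ) ≤ 2 * A * N := mul_le_mul_of_nonneg_left (by linarith)
      (by linarith)
    have e2c : 5 * y * (2 * A * (σ + y - 2)) = 2 * A * (5 * y * σ) +
      2 * A * (5 * y * (y - 2)) := by ring
    rw [e2c] at e2a
    linarith
  have e3 : N * (5 * y * (y ^ 2 - y - 1) - 2 * A) ≤ 10 * A * y * (y - 2) := by linarith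
  have e4 : 5 / 2 * y ^ 3 ≤ 5 * y * (y ^ 2 - y - 1) - 2 * A := by
    rw [hA]
    have : 0 ≤ y * (y * (y - 20)) := by
      apply mul_nonneg hy0.le
      exact mul_nonneg hy0.le (by linarith)
    nlinarith
  have e5 : N * (5 / 2 * y ^ 3) ≤ 10 * A * y * (y - 2) :=
    (mul_le_mul_of_nonneg_left e4 hN).trans e3
  have e6 : A * (y - 2) ≤ y ^ 4 := by
    rw [hA]
    have := pow_pos hy0 3
    nlinarith [pow_pos hy0 2]
  have e7 : N * (5 / 2 * y ^ 3) ≤ (4 * y ^ 2) * (5 / 2 * y ^ 3) := by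
    calc N * (5 / 2 * y ^ 3) ≤ 10 * A * y * (y - 2) := e5
      _ = 10 * y * (A * (y - 2)) := by ring
      _ ≤ 10 * y * y ^ 4 := mul_le_mul_of_nonneg_left e6 (by positivity)
      _ = _ := by ring
  exact le_of_mul_le_mul_right e7 (by positivity)

/-- numerical part, `s ≤ 2` -/
theorem num2 {y N s : ℝ} (hy : 20 ≤ y) (hN : 0 ≤ N) (hs0 : 0 < s) (hs : 2 ≤ s ^ 2)
    (hB : N * (s * (y - 1) - (y + 1)) ≤ s ^ 2 * ((y + 1) * (y * (y - 2))))
    (hs2 : s ≤ 2) : N * 0.28 ≤ 4 * y ^ 2 := by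
  have hy0 : 0 < y := by linarith
  have hK : (y + 1) * (y - 2) ≤ y ^ 2 := by nlinarith
  have e1 : 1.4 ≤ s := by nlinarith
  have e2 : 0.28 * y ≤ s * (y - 1) - (y + 1) := by nlinarith
  have e3 : N * (0.28 * y) ≤ 4 * (y ^ 2 * y) := by
    calc N * (0.28 * y) ≤ N * (s * (y - 1) - (y + 1)) := mul_le_mul_of_nonneg_left e2 hN
      _ ≤ s ^ 2 * ((y + 1) * (y * (y - 2))) := hB
      _ ≤ 4 * ((y + 1) * (y * (y - 2))) := by
        apply mul_le_mul_of_nonneg_right (by nlinarith)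
        apply mul_nonneg (by linarith)
        exact mul_nonneg hy0.le (by linarith)
      _ = 4 * (((y + 1) * (y - 2)) * y) := by ring
      _ ≤ 4 * (y ^ 2 * y) := by
        apply mul_le_mul_of_nonneg_left _ (by norm_num)
        exact mul_le_mul_of_nonneg_right hK hy0.le
  have : y * (N * 0.28) ≤ y * (4 * y ^ 2) := by linarith
  exact le_of_mul_le_mul_left this hy0

/-- numerical part, `2 ≤ s ≤ 4` -/
theorem num3 {y N s : ℝ} (hy : 20 ≤ y) (hN : 0 ≤ N) (hs0 : 0 < s)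
    (hB : N * (s * (y - 1) - (y + 1)) ≤ s ^ 2 * ((y + 1) * (y * (y - 2))))
    (hs2 : 2 < s) (hs4 : s ≤ 4) : N ≤ 8.96 * y ^ 2 := by
  have hy0 : 0 < y := by linarith
  have e2 : s * (y - 3) / 2 ≤ s * (y - 1) - (y + 1) := by nlinarith
  have e3 : N * ((y - 3) / 2) ≤ s * ((y + 1) * (y * (y - 2))) := by
    have e4 : s * (N * ((y - 3) / 2)) ≤ s * (s * ((y + 1) * (y * (y - 2)))) := by
      have e4a := mul_le_mul_of_nonneg_left e2 hN
      have e4b : s * (N * ((y - 3) / 2)) = N * (s * (y - 3) / 2) := by ring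
      have e4c : s * (s * ((y + 1) * (y * (y - 2)))) = s ^ 2 * ((y + 1) * (y * (y - 2))) := by
        ring
      rw [e4b, e4c]
      linarith
    exact le_of_mul_le_mul_left e4 hs0
  have e5 : (y + 1) * (y - 2) ≤ 1.12 * y * (y - 3) := by nlinarith
  have e6 : N * ((y - 3) / 2) ≤ 4.48 * y ^ 2 * (y - 3) := by
    calc N * ((y - 3) / 2) ≤ s * ((y + 1) * (y * (y - 2))) := e3
      _ ≤ 4 * ((y + 1) * (y * (y - 2))) := by
        apply mul_le_mul_of_nonneg_right hs4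
        apply mul_nonneg (by linarith)
        exact mul_nonneg hy0.le (by linarith)
      _ = 4 * y * ((y + 1) * (y - 2)) := by ring
      _ ≤ 4 * y * (1.12 * y * (y - 3)) := mul_le_mul_of_nonneg_left e5 (by positivity)
      _ = _ := by ring
  have : (y - 3) * N ≤ (y - 3) * (8.96 * y ^ 2) := by linarith
  exact le_of_mul_le_mul_left this (by linarith)

/-- numerical part, `4 ≤ s` -/
theorem num4 {y N s : ℝ} (hy : 20 ≤ y) (hN : 0 ≤ N) (hs0 : 0 < s)
    (hB : N * (s * (y - 1) - (y + 1)) ≤ s ^ 2 * ((y + 1) * (y * (y - 2))))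
    (hs4 : 4 < s) : N ≤ 4 * (s * y * (y / 3 + 2 / 9)) := by
  have hy0 : 0 < y := by linarith
  have e2 : s * (3 * y - 5) / 4 ≤ s * (y - 1) - (y + 1) := by nlinarith
  have e3 : N * ((3 * y - 5) / 4) ≤ s * ((y + 1) * (y * (y - 2))) := by
    have e4 : s * (N * ((3 * y - 5) / 4)) ≤ s * (s * ((y + 1) * (y * (y - 2)))) := by
      have e4a := mul_le_mul_of_nonneg_left e2 hN
      have e4b : s * (N * ((3 * y - 5) / 4)) = N * (s * (3 * y - 5) / 4) := by ring
      have e4c : s * (s * ((y + 1) * (y * (y - 2)))) = s ^ 2 * ((y + 1) * (y * (y - 2))) := by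
        ring
      rw [e4b, e4c]
      linarith
    exact le_of_mul_le_mul_left e4 hs0
  have e5 : (y + 1) * (y - 2) ≤ (3 * y - 5) * (y / 3 + 2 / 9) := by nlinarith
  have e6 : N * ((3 * y - 5) / 4) ≤ s * y * ((3 * y - 5) * (y / 3 + 2 / 9)) := by
    calc N * ((3 * y - 5) / 4) ≤ s * ((y + 1) * (y * (y - 2))) := e3
      _ = s * y * ((y + 1) * (y - 2)) := by ring
      _ ≤ _ := mul_le_mul_of_nonneg_left e5 (by positivity)
  have : (3 * y - 5) * N ≤ (3 * y - 5) * (4 * (s * y * (y / 3 + 2 / 9))) := by linarith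
  exact le_of_mul_le_mul_left this (by linarith)

/-- numerical part -/
theorem numerics {y N s σ : ℝ} (hy : 20 ≤ y) (hN : 0 ≤ N) (hs0 : 0 < s) (hs : 2 ≤ s ^ 2)
    (h1 : N * ((y ^ 2 - 1) * s - (1 + y) ^ 2) ≤ s ^ 2 * ((y ^ 2 - 1) ^ 2 - (1 + y) ^ 2))
    (h2 : N * ((σ - 1) * (y ^ 2 - y - 1)) ≤ σ * ((y - 1) * (y + 1) ^ 2 * (σ + y - 2)))
    (hσ : 2 ≤ σ) (hσN : σ * s ^ 2 ≤ N) : N ^ 4 ≤ 256 * y ^ 10 := by
  have hy0 : 0 < y := by linarith
  obtain ⟨w, hw, hwy⟩ : ∃ w : ℝ, 0 < w ∧ y = w ^ 2 :=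
    ⟨Real.sqrt y, Real.sqrt_pos.mpr hy0, (Real.sq_sqrt hy0.le).symm⟩
  have hw4 : 4.4 < w := by nlinarith
  have hyy : 0 < y ^ 2 := by positivity
  suffices h : N ≤ 4 * y ^ 2 * w by
    calc N ^ 4 ≤ (4 * y ^ 2 * w) ^ 4 := pow_le_pow_left₀ hN h 4
      _ = 256 * y ^ 8 * (w ^ 2) ^ 2 := by ring
      _ = 256 * y ^ 10 := by rw [← hwy]; ring
  have hA0 : 0 < (y - 1) * (y + 1) ^ 2 := by apply mul_pos (by linarith); positivity
  -- `N L ≤ 2 A (σ + y - 2)`
  have h3 : N * (y ^ 2 - y - 1) ≤ 2 * ((y - 1) * (y + 1) ^ 2) * (σ + y - 2) := by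
    have e1 : (σ - 1) * (N * (y ^ 2 - y - 1)) ≤
        (σ - 1) * (2 * ((y - 1) * (y + 1) ^ 2) * (σ + y - 2)) := by
      have e2 : σ * ((y - 1) * (y + 1) ^ 2 * (σ + y - 2)) ≤
          (2 * (σ - 1)) * ((y - 1) * (y + 1) ^ 2 * (σ + y - 2)) :=
        mul_le_mul_of_nonneg_right (by linarith) (mul_nonneg hA0.le (by linarith))
      linarith
    exact le_of_mul_le_mul_left e1 (by linarith)
  have hw9 : 4 * y ^ 2 * 4.4 ≤ 4 * y ^ 2 * w :=
    mul_le_mul_of_nonneg_left hw4.le (by positivity)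
  rcases le_or_gt (5 * y) (s ^ 2) with hq | hq
  · have e1 := num1 hy hN h3 hσ hσN hq
    linarith
  · have hB : N * (s * (y - 1) - (y + 1)) ≤ s ^ 2 * ((y + 1) * (y * (y - 2))) := by
      have e1 : (y + 1) * (N * (s * (y - 1) - (y + 1))) ≤
          (y + 1) * (s ^ 2 * ((y + 1) * (y * (y - 2)))) := by
        calc (y + 1) * (N * (s * (y - 1) - (y + 1))) = N * ((y ^ 2 - 1) * s - (1 + y) ^ 2) := by
              ring
          _ ≤ s ^ 2 * ((y ^ 2 - 1) ^ 2 - (1 + y) ^ 2) := h1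
          _ = _ := by ring
      exact le_of_mul_le_mul_left e1 (by linarith)
    rcases le_or_gt s 2 with hs2 | hs2
    · have e1 := num2 hy hN hs0 hs hB hs2
      linarith
    · rcases le_or_gt s 4 with hs4 | hs4
      · have e1 := num3 hy hN hs0 hB hs2 hs4
        linarith
      · have e7 := num4 hy hN hs0 hB hs4
        have e8 : s ≤ 2.24 * w := by
          apply le_of_sq _ (by positivity)
          rw [mul_pow, ← hwy]
          linarith
        have e9 : 4 * (s * y * (y / 3 + 2 / 9)) ≤ 4 * (2.24 * w * y * (y / 3 + 2 / 9)) := by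
          apply mul_le_mul_of_nonneg_left _ (by norm_num)
          apply mul_le_mul_of_nonneg_right _ (by positivity)
          exact mul_le_mul_of_nonneg_right e8 hy0.le
        have e10 : w * y * (2.24 * (y / 3 + 2 / 9)) ≤ w * y * y := by
          apply mul_le_mul_of_nonneg_left _ (by positivity)
          linarith
        have e11 : 4 * (2.24 * w * y * (y / 3 + 2 / 9)) = 4 * (w * y * (2.24 * (y / 3 + 2 / 9))) := by
          ring
        have e12 : 4 * y ^ 2 * w = 4 * (w * y * y) := by ring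
        linarith

end Run7.h489.AbSym
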