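import Mathlib
import Pool.Agent.Run7.h489.AbSym.Gen

set_option autoImplicit false

/-! Commutative groups of symmetries of a maximal equiangular tight frame: main results. -/

namespace Run7.h489.AbSym

open Matrix Pool.Agent.H109R2.SIC Pool.Agent.H109R2.SymGroup Pool.Agent.W864.Sym
  Pool.Agent.TH446.SICG
open scoped ComplexOrder InnerProductSpace

variable {d : ℕ} {x : Fin (d ^ 2) → EuclideanSpace ℂ (Fin d)}

theorem norb_pos (hd : 1 ≤ d) (G : Subgroup (Equiv.Perm (Fin (d ^ 2)))) : 1 ≤ norb G := by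
  classical
  have : Nonempty (Quotient (MulAction.orbitRel G (Fin (d ^ 2)))) :=
    ⟨Quotient.mk _ ⟨0, by positivity⟩⟩
  exact Nat.card_pos

/-- A commutative group of symmetries which does not act freely is small. -/
theorem nonfree_bound (hd : 400 ≤ d) (hx : IsMaxETF d x)
    (G : Subgroup (Equiv.Perm (Fin (d ^ 2)))) (hG : ∀ π ∈ G, ∃ M, Ind x M π)
    (hc : ∀ a ∈ G, ∀ b ∈ G, a * b = b * a) {i : Fin (d ^ 2)} (hi : 2 ≤ Nat.card (stab G i)) :
    (Nat.card G : ℝ) ^ 4 ≤ 256 * ((d : ℝ) + 1) ^ 5 := by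
  classical
  obtain ⟨y, hy⟩ : ∃ y, y = Real.sqrt ((d : ℝ) + 1) := ⟨_, rfl⟩
  obtain ⟨hy2, hdy⟩ := y_facts (by omega) hy
  have hd400 : (400 : ℝ) ≤ d := by exact_mod_cast hd
  have hy20 : 20 ≤ y := by nlinarith
  have hpow : ((d : ℝ) + 1) ^ 5 = y ^ 10 := by rw [hdy]; ring
  rw [hpow]
  choose U hU using fun g : G => hG g g.2
  obtain ⟨N, hN⟩ : ∃ N : ℝ, N = (Nat.card G : ℝ) := ⟨_, rfl⟩
  have hN0 : 0 < N := by rw [hN]; exact_mod_cast Nat.card_pos
  obtain ⟨R, hR⟩ : ∃ R, R = rad (by omega) hx G U hU := ⟨_, rfl⟩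
  obtain ⟨q, hq⟩ : ∃ q : ℕ, q = Nat.card (G ⧸ R) := ⟨_, rfl⟩
  obtain ⟨ρ, hρ⟩ : ∃ ρ : ℕ, ρ = Nat.card R := ⟨_, rfl⟩
  have hNq : N = q * ρ := by
    rw [hN, hq, hρ, Subgroup.card_eq_card_quotient_mul_card_subgroup R]
    push_cast
    rfl
  have hq0 : 0 < q := by rw [hq]; exact Nat.card_pos
  have hρ0 : 0 < ρ := by rw [hρ]; exact Nat.card_pos
  rw [← hN]
  by_cases hq1 : q = 1
  · -- commuting unitaries
    have hcomm : ∀ a b, U a * U b = U b * U a := by
      intro a b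
      have h1 : R = ⊤ := by
        rw [← Subgroup.index_eq_one, Subgroup.index, ← hq, hq1]
      have h2 : b ∈ rad (by omega) hx G U hU := by rw [← hR, h1]; exact Subgroup.mem_top _
      exact h2 a
    have h1 := commuting_bound (by omega) hx G hc U hU hcomm
    rw [← hN, ← hy] at h1
    have h2 : N * (y ^ 2 - 6 * y - 4) ≤ 3 * (y ^ 2 - 1) * (y ^ 2 - y - 1) := by
      rw [hdy] at h1
      have e1 : y ^ 2 - 1 - 6 * y - 3 = y ^ 2 - 6 * y - 4 := by ring
      have e2 : y ^ 2 - 1 - y = y ^ 2 - y - 1 := by ring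
      rwa [e1, e2] at h1
    have h3 : N * (1 / 2 * y ^ 2) ≤ (6 * y ^ 2) * (1 / 2 * y ^ 2) := by
      have e1 : N * (1 / 2 * y ^ 2) ≤ N * (y ^ 2 - 6 * y - 4) :=
        mul_le_mul_of_nonneg_left (by nlinarith) hN0.le
      have e2 : 3 * (y ^ 2 - 1) * (y ^ 2 - y - 1) ≤ 3 * y ^ 2 * y ^ 2 := by
        have e3 : (y ^ 2 - 1) * (y ^ 2 - y - 1) ≤ y ^ 2 * y ^ 2 :=
          mul_le_mul (by linarith) (by linarith) (by nlinarith) (by positivity)
        linarith
      linarith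
    have h4 : N ≤ 6 * y ^ 2 := le_of_mul_le_mul_right h3 (by positivity)
    have h5 : N ^ 4 ≤ (6 * y ^ 2) ^ 4 := pow_le_pow_left₀ hN0.le h4 4
    have h6 : (6 * y ^ 2) ^ 4 ≤ 256 * y ^ 10 := by
      have e1 : (6 * y ^ 2) ^ 4 = y ^ 8 * 1296 := by ring
      have e2 : 256 * y ^ 10 = y ^ 8 * (256 * y ^ 2) := by ring
      rw [e1, e2]
      exact mul_le_mul_of_nonneg_left (by nlinarith) (by positivity)
    linarith
  · have hq2 : 2 ≤ q := by omega
    have hqr : (2 : ℝ) ≤ q := by exact_mod_cast hq2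
    obtain ⟨s, hs⟩ : ∃ s : ℝ, s = Real.sqrt q := ⟨_, rfl⟩
    have hs2 : s ^ 2 = q := by rw [hs]; exact Real.sq_sqrt (by positivity)
    have hs0 : 0 < s := by rw [hs]; exact Real.sqrt_pos.mpr (by linarith)
    obtain ⟨t, ht⟩ : ∃ t : ℝ, t = (norb G : ℝ) := ⟨_, rfl⟩
    have ht0 : 0 ≤ t := by rw [ht]; exact Nat.cast_nonneg _
    have hrank : (d : ℝ) ^ 2 ≤ (s * t) ^ 2 := by
      have : Fintype G := Fintype.ofFinite G
      have h1 := rank_ineq (by omega) hx G U hU q t (by rw [hq, hR])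
        (by rw [ht, norb, Nat.card_eq_fintype_card])
      rw [mul_pow, hs2]
      exact h1
    have hdst : (d : ℝ) ≤ s * t := le_of_sq hrank (by positivity)
    have hsum := sum_fix_rad (by omega) hx G hc U hU
    rw [← hR, ← hρ, ← ht, ← hN, ← hy] at hsum
    have h1 : N * ((y ^ 2 - 1) * s - (1 + y) ^ 2) ≤ s ^ 2 * ((y ^ 2 - 1) ^ 2 - (1 + y) ^ 2) := by
      rw [← hdy]
      have e1 : (d : ℝ) * s * ρ ≤ t * N := by
        rw [hNq, ← hs2]
        have : (d : ℝ) * (s * ρ) ≤ (s * t) * (s * ρ) :=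
          mul_le_mul_of_nonneg_right hdst (by positivity)
        linarith
      have e2 : (ρ : ℝ) * ((d : ℝ) * s - (1 + y) ^ 2) ≤ (d : ℝ) ^ 2 - (1 + y) ^ 2 := by
        linarith
      have e3 := mul_le_mul_of_nonneg_left e2 (sq_nonneg s)
      rw [hNq, ← hs2]
      linarith
    obtain ⟨σ, hσ⟩ : ∃ σ : ℝ, σ = (Nat.card (stab G i) : ℝ) := ⟨_, rfl⟩
    have hσ2 : 2 ≤ σ := by rw [hσ]; exact_mod_cast hi
    have hob := orb_bound (by omega) hx hG hc i hi y σ hy hσ
    have hus : ((orb G i).card : ℝ) * σ = N := by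
      rw [hσ, hN]
      exact_mod_cast orb_stab G i
    have h2 : N * ((σ - 1) * (y ^ 2 - y - 1)) ≤
        σ * ((y - 1) * (y + 1) ^ 2 * (σ + y - 2)) := by
      rw [← hus]
      have := mul_le_mul_of_nonneg_left hob (by linarith : 0 ≤ σ)
      linarith
    have h3 : σ * s ^ 2 ≤ N := by
      rw [hNq, hs2, mul_comm]
      refine mul_le_mul_of_nonneg_left ?_ (by positivity)
      rw [hσ, hρ, hR]
      exact_mod_cast card_stab_le (by omega) hx G hc U hU i
    exact numerics hy20 hN0.le hs0 (by rw [hs2]; exact hqr) h1 h2 hσ2 h3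

theorem smul_left_inj' {M : Matrix (Fin d) (Fin d) ℂ} (hM : Mᴴ * M = 1) (hd : 1 ≤ d) {c c' : ℂ}
    (h : c • M = c' • M) : c = c' := by
  have h1 := congrArg (fun X => Mᴴ * X) h
  simp only [mul_smul_comm, hM] at h1
  have h2 := congrFun (congrFun h1 ⟨0, hd⟩) ⟨0, hd⟩
  simpa using h2

/-- the commutator characters -/
theorem exists_chi (hd : 1 ≤ d) (hx : IsMaxETF d x) (G : Subgroup (Equiv.Perm (Fin (d ^ 2))))
    (hc : ∀ a ∈ G, ∀ b ∈ G, a * b = b * a)
    (U : G → Matrix (Fin d) (Fin d) ℂ) (hU : ∀ g : G, Ind x (U g) g) (b : G) :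
    ∃ χ : G →* ℂ, ∀ g, U g * U b = χ g • (U b * U g) := by
  have h1 : ∀ g : G, ∃ c : ℂ, U g * U b = c • (U b * U g) := by
    intro g
    have e1 : Ind x (U g * U b) (g * b : Equiv.Perm (Fin (d ^ 2))) := (hU g).mul (hU b)
    have e2 : Ind x (U b * U g) (g * b : Equiv.Perm (Fin (d ^ 2))) := by
      rw [hc g g.2 b b.2]
      exact (hU b).mul (hU g)
    obtain ⟨c, -, h⟩ := Ind_prop hd hx e1 e2
    exact ⟨c, h⟩
  choose χ hχ using h1
  have huni : ∀ g, (U b * U g)ᴴ * (U b * U g) = 1 := fun g => ((hU b).mul (hU g)).1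
  refine ⟨⟨⟨χ, ?_⟩, ?_⟩, hχ⟩
  · obtain ⟨c, -, h⟩ := Ind_prop hd hx (hU 1) Ind.one
    have h2 := hχ 1
    apply smul_left_inj' (huni 1) hd
    rw [← h2, h]
    simp
  · intro g g'
    obtain ⟨c, -, h⟩ := Ind_prop hd hx (hU (g * g')) ((hU g).mul (hU g'))
    apply smul_left_inj' (huni (g * g')) hd
    rw [← hχ (g * g'), h, mul_smul_comm, smul_mul_assoc, Matrix.mul_assoc, hχ g',
      mul_smul_comm, ← Matrix.mul_assoc, hχ g, smul_mul_assoc, smul_smul, smul_smul, smul_smul,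
      Matrix.mul_assoc]
    congr 1
    ring

/-- a commutator in prime dimension -/
theorem comm_root (hp : d.Prime) {A B : Matrix (Fin d) (Fin d) ℂ} (hA : Aᴴ * A = 1)
    (hB : Bᴴ * B = 1) {c : ℂ} (h : A * B = c • (B * A)) (hc : c ≠ 1) : IsPrimitiveRoot c d := by
  have h1 := congrArg Matrix.det h
  rw [det_smul, det_mul, det_mul, Fintype.card_fin] at h1
  have hA0 : A.det ≠ 0 := by
    intro h0
    have := congrArg Matrix.det hA
    rw [det_mul, h0, mul_zero, det_one] at this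
    exact zero_ne_one this
  have hB0 : B.det ≠ 0 := by
    intro h0
    have := congrArg Matrix.det hB
    rw [det_mul, h0, mul_zero, det_one] at this
    exact zero_ne_one this
  have h2 : c ^ d = 1 := by
    have h3 : (c ^ d - 1) * (B.det * A.det) = 0 := by linear_combination -h1
    have := (mul_eq_zero.mp h3).resolve_right (mul_ne_zero hB0 hA0)
    linear_combination this
  have h3 : orderOf c = d := by
    have := orderOf_dvd_of_pow_eq_one h2
    rcases (Nat.dvd_prime hp).mp this with h4 | h4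
    · exact absurd (orderOf_eq_one_iff.mp h4) hc
    · exact h4
  rw [← h3]
  exact IsPrimitiveRoot.orderOf c

/-- in prime dimension noncommuting unitary symmetries generate a transitive group. -/
theorem prime_case (hp : d.Prime) (hd : 4 ≤ d) (hx : IsMaxETF d x)
    (G : Subgroup (Equiv.Perm (Fin (d ^ 2)))) (hc : ∀ a ∈ G, ∀ b ∈ G, a * b = b * a)
    (U : G → Matrix (Fin d) (Fin d) ℂ) (hU : ∀ g : G, Ind x (U g) g) {a b : G}
    (hab : U a * U b ≠ U b * U a) : Nat.card G = d ^ 2 ∧ norb G = 1 := by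
  classical
  obtain ⟨χ, hχ⟩ := exists_chi (by omega) hx G hc U hU b
  obtain ⟨ψ, hψ⟩ := exists_chi (by omega) hx G hc U hU a
  have hcb : IsPrimitiveRoot (χ a) d := by
    refine comm_root hp (hU a).1 (hU b).1 (hχ a) fun h => hab ?_
    rw [hχ a, h, one_smul]
  have hca : IsPrimitiveRoot (ψ b) d := by
    refine comm_root hp (hU b).1 (hU a).1 (hψ b) fun h => hab ?_
    rw [hψ b, h, one_smul]
  have hself : χ b = 1 := by
    apply smul_left_inj' ((hU b).mul (hU b)).1 (by omega)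
    rw [← hχ b, one_smul]
  have hself' : ψ a = 1 := by
    apply smul_left_inj' ((hU a).mul (hU a)).1 (by omega)
    rw [← hψ a, one_smul]
  set R := rad (by omega) hx G U hU with hR
  have hRχ : ∀ g ∈ R, χ g = 1 := by
    intro g hg
    apply smul_left_inj' ((hU b).mul (hU g)).1 (by omega)
    rw [← hχ g, one_smul]
    exact (hg b).symm
  have hRψ : ∀ g ∈ R, ψ g = 1 := by
    intro g hg
    apply smul_left_inj' ((hU a).mul (hU g)).1 (by omega)
    rw [← hψ g, one_smul]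
    exact (hg a).symm
  have hcard : d ^ 2 ≤ Nat.card (G ⧸ R) := by
    have : Fintype (G ⧸ R) := Fintype.ofFinite _
    let f : Fin d × Fin d → G ⧸ R := fun k => QuotientGroup.mk (a ^ (k.1 : ℕ) * b ^ (k.2 : ℕ))
    have hf : Function.Injective f := by
      rintro ⟨k, j⟩ ⟨k', j'⟩ h
      have h1 : (a ^ (k : ℕ) * b ^ (j : ℕ))⁻¹ * (a ^ (k' : ℕ) * b ^ (j' : ℕ)) ∈ R :=
        QuotientGroup.eq.1 h
      have h2 : ∀ φ : G →* ℂ, (∀ g ∈ R, φ g = 1) →
          φ a ^ (k : ℕ) * φ b ^ (j : ℕ) = φ a ^ (k' : ℕ) * φ b ^ (j' : ℕ) := by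
        intro φ hφ
        have e1 := hφ _ h1
        rw [map_mul] at e1
        have e2 : φ (a ^ (k : ℕ) * b ^ (j : ℕ)) * φ (a ^ (k : ℕ) * b ^ (j : ℕ))⁻¹ = 1 := by
          rw [← map_mul, mul_inv_cancel, map_one]
        have e3 : φ (a ^ (k : ℕ) * b ^ (j : ℕ)) = φ (a ^ (k' : ℕ) * b ^ (j' : ℕ)) := by
          calc φ (a ^ (k : ℕ) * b ^ (j : ℕ)) = φ (a ^ (k : ℕ) * b ^ (j : ℕ)) *
              (φ (a ^ (k : ℕ) * b ^ (j : ℕ))⁻¹ * φ (a ^ (k' : ℕ) * b ^ (j' : ℕ))) := by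
                rw [e1, mul_one]
            _ = _ := by rw [← mul_assoc, e2, one_mul]
        rwa [map_mul, map_mul, map_pow, map_pow, map_pow, map_pow] at e3
      have h3 := h2 χ hRχ
      rw [hself, one_pow, one_pow, mul_one, mul_one] at h3
      have h4 := h2 ψ hRψ
      rw [hself', one_pow, one_pow, one_mul, one_mul] at h4
      have h5 := hcb.pow_inj k.2 k'.2 h3
      have h6 := hca.pow_inj j.2 j'.2 h4
      rw [Prod.mk.injEq]
      exact ⟨Fin.ext h5, Fin.ext h6⟩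
    have h1 := Fintype.card_le_of_injective f hf
    rw [Fintype.card_prod, Fintype.card_fin] at h1
    rw [Nat.card_eq_fintype_card]
    nlinarith
  obtain ⟨y, hy⟩ : ∃ y, y = Real.sqrt ((d : ℝ) + 1) := ⟨_, rfl⟩
  obtain ⟨hy2, hdy⟩ := y_facts hd hy
  have hsum := sum_fix_rad (by omega) hx G hc U hU
  rw [← hR, ← hy] at hsum
  have hN := Subgroup.card_eq_card_quotient_mul_card_subgroup R
  have ht := norb_pos (by omega) G
  have hρ0 : 0 < Nat.card R := Nat.card_pos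
  have h1 : d ^ 2 * Nat.card R ≤ Nat.card G := by
    rw [hN]; exact Nat.mul_le_mul_right _ hcard
  have h1r : (d : ℝ) ^ 2 * Nat.card R ≤ Nat.card G := by exact_mod_cast h1
  have h2 : (Nat.card G : ℝ) ≤ norb G * Nat.card G := by
    have : (1 : ℝ) ≤ norb G := by exact_mod_cast ht
    have h3 : (0 : ℝ) ≤ Nat.card G := Nat.cast_nonneg _
    nlinarith
  have hF : (1 + y) ^ 2 < (d : ℝ) ^ 2 := by
    rw [hdy]
    have : (y ^ 2 - 1) ^ 2 - (1 + y) ^ 2 = (1 + y) ^ 2 * (y * (y - 2)) := by ring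
    have h3 : 0 < (1 + y) ^ 2 * (y * (y - 2)) := by
      apply mul_pos (by positivity)
      exact mul_pos (by linarith) (by linarith)
    linarith
  have hρ1 : Nat.card R = 1 := by
    by_contra h
    have h3 : 2 ≤ Nat.card R := by omega
    have h3r : (2 : ℝ) ≤ Nat.card R := by exact_mod_cast h3
    have h4 : (d : ℝ) ^ 2 * Nat.card R ≤ (d : ℝ) ^ 2 + ((Nat.card R : ℝ) - 1) * (1 + y) ^ 2 :=
      (h1r.trans h2).trans hsum
    have h5 : ((Nat.card R : ℝ) - 1) * ((d : ℝ) ^ 2 - (1 + y) ^ 2) ≤ 0 := by linarith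
    have h6 : 0 < ((Nat.card R : ℝ) - 1) * ((d : ℝ) ^ 2 - (1 + y) ^ 2) :=
      mul_pos (by linarith) (by linarith)
    linarith
  rw [hρ1, Nat.cast_one, sub_self, zero_mul, add_zero] at hsum
  rw [hρ1, mul_one] at h1
  have h3 : norb G * Nat.card G ≤ d ^ 2 := by exact_mod_cast hsum
  have h4 : Nat.card G = d ^ 2 := by
    refine le_antisymm ?_ h1
    exact le_trans (Nat.le_mul_of_pos_left _ (by omega)) h3
  refine ⟨h4, ?_⟩
  rw [h4] at h3
  have h5 : 0 < d ^ 2 := by positivity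
  have h6 : norb G ≤ 1 := by
    by_contra h
    push Not at h
    nlinarith
  omega

/-- a single orbit -/
theorem trans_of_norb {G : Subgroup (Equiv.Perm (Fin (d ^ 2)))} (h : norb G = 1)
    (i j : Fin (d ^ 2)) : ∃ g ∈ G, g i = j := by
  classical
  rw [norb, Nat.card_eq_one_iff_unique] at h
  obtain ⟨h1, -⟩ := h
  have h2 : (Quotient.mk (MulAction.orbitRel G (Fin (d ^ 2))) j) = Quotient.mk _ i :=
    Subsingleton.elim _ _
  obtain ⟨g, hg⟩ : j ∈ MulAction.orbit G i := Quotient.exact h2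
  exact ⟨g, g.2, hg⟩

end Run7.h489.AbSym
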