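import Mathlib
import Pool.Agent.Run7.h489.AbSym.Main

set_option autoImplicit false

/-! The order of a symmetry of a maximal equiangular tight frame. -/

namespace Run7.h489.AbSym

open Matrix Pool.Agent.H109R2.SIC Pool.Agent.H109R2.SymGroup Pool.Agent.W864.Sym
  Pool.Agent.TH446.SICG
open scoped ComplexOrder InnerProductSpace

variable {d : ℕ} {x : Fin (d ^ 2) → EuclideanSpace ℂ (Fin d)}

theorem card_div_le (n : ℕ) (hn : 0 < n) : n.divisors.card ≤ 2 * Nat.sqrt n := by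
  classical
  have h1 : (n.divisors.filter fun k => k * k ≤ n).card ≤ Nat.sqrt n := by
    have h2 : (n.divisors.filter fun k => k * k ≤ n) ⊆ Finset.Icc 1 (Nat.sqrt n) := by
      intro k hk
      rw [Finset.mem_filter] at hk
      rw [Finset.mem_Icc]
      exact ⟨Nat.pos_of_mem_divisors hk.1, Nat.le_sqrt.mpr hk.2⟩
    have := Finset.card_le_card h2
    rwa [Nat.card_Icc, Nat.add_sub_cancel] at this
  have h3 : (n.divisors.filter fun k => ¬ k * k ≤ n).card ≤
      (n.divisors.filter fun k => k * k ≤ n).card := by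
    refine Finset.card_le_card_of_injOn (fun k => n / k) ?_ ?_
    · intro k hk
      rw [Finset.mem_coe, Finset.mem_filter] at hk
      rw [Finset.mem_coe, Finset.mem_filter]
      have hkd := Nat.dvd_of_mem_divisors hk.1
      refine ⟨Nat.mem_divisors.mpr ⟨Nat.div_dvd_of_dvd hkd, hn.ne'⟩, ?_⟩
      have hk2 := hk.2
      push Not at hk2
      obtain ⟨m, hm⟩ := hkd
      have hk0 : 0 < k := Nat.pos_of_mem_divisors hk.1
      have h4 : n / k = m := by rw [hm]; exact Nat.mul_div_cancel_left m hk0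
      simp only [h4]
      have h5 : m < k := by
        by_contra h
        push Not at h
        nlinarith
      nlinarith
    · intro k hk l hl h
      rw [Finset.mem_coe, Finset.mem_filter] at hk hl
      obtain ⟨m, hm⟩ := Nat.dvd_of_mem_divisors hk.1
      obtain ⟨m', hm'⟩ := Nat.dvd_of_mem_divisors hl.1
      have hk0 : 0 < k := Nat.pos_of_mem_divisors hk.1
      have hl0 : 0 < l := Nat.pos_of_mem_divisors hl.1
      have h4 : n / k = m := by
        conv_lhs => rw [hm]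
        exact Nat.mul_div_cancel_left m hk0
      have h5 : n / l = m' := by
        conv_lhs => rw [hm']
        exact Nat.mul_div_cancel_left m' hl0
      simp only [h4, h5] at h
      have hm0 : 0 < m := by
        rcases Nat.eq_zero_or_pos m with h0 | h0
        · rw [h0, mul_zero] at hm; omega
        · exact h0
      rw [← h] at hm'
      exact Nat.eq_of_mul_eq_mul_right hm0 (hm.symm.trans hm')
  have h4 := Finset.card_filter_add_card_filter_not (s := n.divisors) (fun k => k * k ≤ n)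
  omega

/-- sum over a finite cyclic group -/
theorem cyc_sum {G : Type*} [Group G] [Fintype G] [IsCyclic G] [DecidableEq G] :
    ∑ g ∈ Finset.univ.erase (1 : G), 1 / ((orderOf g : ℝ) - 1) ≤
      ((Fintype.card G).divisors.card : ℝ) - 1 := by
  classical
  set D := (Fintype.card G).divisors.erase 1 with hD
  have h0 : 0 < Fintype.card G := Fintype.card_pos
  have hmaps : ∀ g ∈ Finset.univ.erase (1 : G), orderOf g ∈ D := by
    intro g hg
    rw [hD, Finset.mem_erase, Nat.mem_divisors]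
    refine ⟨fun h => Finset.ne_of_mem_erase hg (orderOf_eq_one_iff.mp h), orderOf_dvd_card,
      h0.ne'⟩
  rw [← Finset.sum_fiberwise_of_maps_to hmaps]
  have h1 : ∀ n ∈ D, ∑ g ∈ (Finset.univ.erase (1 : G)).filter (fun g => orderOf g = n),
      1 / ((orderOf g : ℝ) - 1) ≤ 1 := by
    intro n hn
    rw [hD, Finset.mem_erase, Nat.mem_divisors] at hn
    have hn2 : 2 ≤ n := by
      have : n ≠ 0 := by
        rintro rfl
        exact hn.2.2 (Nat.eq_zero_of_zero_dvd hn.2.1)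
      omega
    have hnr : (0 : ℝ) < (n : ℝ) - 1 := by
      have : (2 : ℝ) ≤ n := by exact_mod_cast hn2
      linarith
    have e1 : ∑ g ∈ (Finset.univ.erase (1 : G)).filter (fun g => orderOf g = n),
        1 / ((orderOf g : ℝ) - 1) =
        ∑ g ∈ (Finset.univ.erase (1 : G)).filter (fun g => orderOf g = n), 1 / ((n : ℝ) - 1) :=
      Finset.sum_congr rfl fun g hg => by rw [(Finset.mem_filter.mp hg).2]
    rw [e1, Finset.sum_const, nsmul_eq_mul, mul_one_div, div_le_one hnr]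
    have e2 : ((Finset.univ.erase (1 : G)).filter (fun g => orderOf g = n)).card ≤ n - 1 := by
      have e3 : ((Finset.univ.erase (1 : G)).filter (fun g => orderOf g = n)).card ≤
          (Finset.univ.filter (fun g : G => orderOf g = n)).card :=
        Finset.card_le_card (Finset.filter_subset_filter _ (Finset.erase_subset _ _))
      rw [IsCyclic.card_orderOf_eq_totient hn.2.1] at e3
      exact e3.trans (Nat.le_sub_one_of_lt (Nat.totient_lt n (by omega)))
    have e4 : (((n - 1 : ℕ)) : ℝ) = (n : ℝ) - 1 := by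
      rw [Nat.cast_sub (by omega), Nat.cast_one]
    rw [← e4]
    exact_mod_cast e2
  refine (Finset.sum_le_sum h1).trans (le_of_eq ?_)
  rw [Finset.sum_const, nsmul_eq_mul, mul_one, hD, Finset.card_erase_of_mem
    (Nat.mem_divisors.mpr ⟨one_dvd _, h0.ne'⟩), Nat.cast_sub, Nat.cast_one]
  exact Finset.card_pos.mpr ⟨1, Nat.mem_divisors.mpr ⟨one_dvd _, h0.ne'⟩⟩

theorem fix_le_inv (hd : 4 ≤ d) (hx : IsMaxETF d x) {π : Equiv.Perm (Fin (d ^ 2))}
    (hπ : ∃ M, Ind x M π) (h2 : π ≠ 1) {y L A : ℝ} (hy : y = Real.sqrt ((d : ℝ) + 1))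
    (hL : L = y ^ 2 - y - 1) (hA : A = (y - 1) * (y + 1) ^ 2) :
    (fix π : ℝ) * L ≤ A + A * (y - 1) * (1 / ((orderOf π : ℝ) - 1)) := by
  have e2 := fix_order hd hx hπ h2 y (orderOf π) hy rfl
  rw [← hL, ← hA] at e2
  have e3 : 2 ≤ orderOf π := by
    have h6 := orderOf_pos π
    have h7 : orderOf π ≠ 1 := fun h => h2 (orderOf_eq_one_iff.mp h)
    omega
  obtain ⟨σ, hσ⟩ : ∃ σ : ℝ, σ = (orderOf π : ℝ) := ⟨_, rfl⟩
  rw [← hσ] at e2 ⊢
  have e4 : (0 : ℝ) < σ - 1 := by
    have : (2 : ℝ) ≤ σ := by rw [hσ]; exact_mod_cast e3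
    linarith
  have e5 : (fix π : ℝ) * L = ((fix π : ℝ) * ((σ - 1) * L)) / (σ - 1) := by
    field_simp
  rw [e5, div_le_iff₀ e4]
  refine e2.trans (le_of_eq ?_)
  field_simp
  ring

theorem order_num {y r : ℝ} (hy9 : 9 ≤ y) (h6 : y + 2 ≤ r)
    (h5 : r ^ 2 * (y ^ 2 - 2 * y - 2) ≤ (y ^ 2 - 1) * (y ^ 2 - y - 2 + 2 * r)) : False := by
  obtain ⟨u, hu⟩ : ∃ u, u = y - 9 := ⟨_, rfl⟩
  obtain ⟨v, hv⟩ : ∃ v, v = r - (y + 2) := ⟨_, rfl⟩
  have hu0 : 0 ≤ u := by linarith
  have hv0 : 0 ≤ v := by linarith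
  have e : r ^ 2 * (y ^ 2 - 2 * y - 2) - (y ^ 2 - 1) * (y ^ 2 - y - 2 + 2 * r) =
      u ^ 2 * v ^ 2 + 2 * u ^ 3 * v + 16 * u * v ^ 2 + 52 * u ^ 2 * v + u ^ 3 + 438 * u * v
        + 20 * u ^ 2 + 61 * v ^ 2 + 102 * u + 1182 * v + 21 := by
    rw [show y = u + 9 by linarith, show r = u + 11 + v by linarith]
    ring
  have e2 : 0 < r ^ 2 * (y ^ 2 - 2 * y - 2) - (y ^ 2 - 1) * (y ^ 2 - y - 2 + 2 * r) := by
    rw [e]; positivity
  linarith

/-- **The order of a symmetry** is less than `(√(d+1) + 2)²`. -/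
theorem order_lt (hd : 80 ≤ d) (hx : IsMaxETF d x) {π : Equiv.Perm (Fin (d ^ 2))}
    (hπ : ∃ M, Ind x M π) : (orderOf π : ℝ) < (Real.sqrt ((d : ℝ) + 1) + 2) ^ 2 := by
  classical
  obtain ⟨y, hy⟩ : ∃ y, y = Real.sqrt ((d : ℝ) + 1) := ⟨_, rfl⟩
  obtain ⟨hy2, hdy⟩ := y_facts (by omega) hy
  rw [← hy]
  have hd80 : (80 : ℝ) ≤ d := by exact_mod_cast hd
  have hy9 : 9 ≤ y := by nlinarith
  obtain ⟨M, hM⟩ := hπ
  obtain ⟨G, hGdef⟩ : ∃ G, G = Subgroup.zpowers π := ⟨_, rfl⟩
  have hGpow : ∀ g : G, ∃ k : ℕ, π ^ k = g := by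
    intro g
    have h1 : (g : Equiv.Perm (Fin (d ^ 2))) ∈ Subgroup.zpowers π := by
      rw [← hGdef]; exact g.2
    rw [mem_zpowers_iff_mem_range_orderOf, Finset.mem_image] at h1
    obtain ⟨k, -, hk⟩ := h1
    exact ⟨k, hk⟩
  choose k hk using hGpow
  have hG : ∀ g : G, Ind x (M ^ k g) g := by
    intro g
    have := hM.pow (k g)
    rwa [hk g] at this
  have ht := norb_ge (by omega) hx G (fun g => M ^ k g) hG (fun a b => pow_mul_comm M _ _)
  have hcyc : IsCyclic G := by rw [hGdef]; infer_instance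
  have : Fintype G := Fintype.ofFinite G
  obtain ⟨N, hN⟩ : ∃ N : ℝ, N = (Nat.card G : ℝ) := ⟨_, rfl⟩
  have hNo : (orderOf π : ℝ) = N := by rw [hN, hGdef, Nat.card_zpowers]
  rw [hNo]
  have hN0 : 0 < N := by rw [hN]; exact_mod_cast Nat.card_pos
  obtain ⟨L, hL⟩ : ∃ L, L = y ^ 2 - y - 1 := ⟨_, rfl⟩
  have hL0 : 0 < L := by rw [hL]; nlinarith
  obtain ⟨A, hA⟩ : ∃ A, A = (y - 1) * (y + 1) ^ 2 := ⟨_, rfl⟩
  have hAd : A = d * (y + 1) := by rw [hA, hdy]; ring
  have hd0 : (0 : ℝ) < d := by linarith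
  have hA0 : 0 < A := by rw [hAd]; positivity
  obtain ⟨τ, hτ⟩ : ∃ τ : ℝ, τ = ((Fintype.card G).divisors.card : ℝ) := ⟨_, rfl⟩
  -- the sum over the group
  have h1 : (∑ g : G, (fix (g : Equiv.Perm (Fin (d ^ 2))) : ℝ)) * L ≤
      (d : ℝ) ^ 2 * L + A * (N - 1) + A * (y - 1) * (τ - 1) := by
    rw [Finset.sum_mul, ← Finset.add_sum_erase Finset.univ _ (Finset.mem_univ (1 : G)), add_assoc]
    refine add_le_add (le_of_eq ?_) ?_
    · have : fix ((1 : G) : Equiv.Perm (Fin (d ^ 2))) = d ^ 2 := fix_one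
      rw [this]; push_cast; ring
    · have e1 : ∀ g ∈ Finset.univ.erase (1 : G),
          (fix (g : Equiv.Perm (Fin (d ^ 2))) : ℝ) * L ≤
            A + A * (y - 1) * (1 / ((orderOf g : ℝ) - 1)) := by
        intro g hg
        have hg1 : (g : Equiv.Perm (Fin (d ^ 2))) ≠ 1 := fun h =>
          Finset.ne_of_mem_erase hg (Subtype.ext h)
        have e2 := fix_le_inv (by omega) hx ⟨_, hG g⟩ hg1 hy hL hA
        rw [Subgroup.orderOf_coe] at e2
        exact e2
      refine (Finset.sum_le_sum e1).trans ?_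
      rw [Finset.sum_add_distrib, ← Finset.mul_sum, Finset.sum_const,
        Finset.card_erase_of_mem (Finset.mem_univ _), Finset.card_univ, nsmul_eq_mul]
      refine add_le_add (le_of_eq ?_) ?_
      · rw [Nat.cast_sub Fintype.card_pos, Nat.cast_one, hN, Nat.card_eq_fintype_card]
        ring
      · rw [hτ]
        exact mul_le_mul_of_nonneg_left cyc_sum (mul_nonneg hA0.le (by linarith))
  rw [burn G, ← hN] at h1
  have h2 : τ ≤ 2 * Real.sqrt N := by
    have e1 := card_div_le (Fintype.card G) Fintype.card_pos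
    have e2 : ((Nat.sqrt (Fintype.card G) : ℕ) : ℝ) ≤ Real.sqrt N := by
      rw [hN, Nat.card_eq_fintype_card]
      exact Real.nat_sqrt_le_real_sqrt
    have e3 : τ ≤ 2 * ((Nat.sqrt (Fintype.card G) : ℕ) : ℝ) := by
      rw [hτ]; exact_mod_cast e1
    linarith
  obtain ⟨r, hr⟩ : ∃ r, r = Real.sqrt N := ⟨_, rfl⟩
  have hr2 : r ^ 2 = N := by rw [hr]; exact Real.sq_sqrt hN0.le
  have hr0 : 0 ≤ r := by rw [hr]; exact Real.sqrt_nonneg _
  rw [← hr] at h2
  have h3 : (d : ℝ) * (N * L) ≤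
      d * (d * L + (y + 1) * (N - 1) + d * (τ - 1)) := by
    have e1 : (d : ℝ) * (N * L) ≤ norb G * N * L := by
      have := mul_le_mul_of_nonneg_right ht (mul_nonneg hN0.le hL0.le)
      linarith
    refine (e1.trans h1).trans (le_of_eq ?_)
    have e2 : A * (y - 1) = d * d := by rw [hAd]; nth_rewrite 3 [hdy]; ring
    rw [e2, hAd]
    ring
  have h4 := le_of_mul_le_mul_left h3 hd0
  have h5 : r ^ 2 * (y ^ 2 - 2 * y - 2) ≤ (y ^ 2 - 1) * (y ^ 2 - y - 2 + 2 * r) := by
    rw [← hdy, hr2]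
    have e1 : (d : ℝ) * (τ - 1) ≤ d * (2 * r - 1) :=
      mul_le_mul_of_nonneg_left (by linarith) hd0.le
    have e2 : y ^ 2 - 2 * y - 2 = L - (y + 1) := by rw [hL]; ring
    have e3 : y ^ 2 - y - 2 = L - 1 := by rw [hL]; ring
    rw [e2, e3]
    linarith
  by_contra hcon
  push Not at hcon
  have h6 : y + 2 ≤ r := by
    rw [← hr2] at hcon
    exact le_of_sq hcon hr0
  exact order_num hy9 h6 h5

end Run7.h489.AbSym
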